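import Pool.Agent.Lib.MP_cf143d_an.Toep

/-!
# The model operators `T_w` and the value `h(T_w)`
-/

open Complex Metric Set Filter Topology Polynomial
open scoped ComplexConjugate

namespace Pool.MP_cf143d_an.Ptak

theorem toep_zero (n : ℕ) : toep n 0 = 0 := by
  ext i j
  simp [toep]

/-- `toep n` as an algebra homomorphism. -/
noncomputable def toepHom (n : ℕ) : PowerSeries ℂ →ₐ[ℂ] Matrix (Fin n) (Fin n) ℂ where
  toFun := toep n
  map_one' := toep_one n
  map_mul' := toep_mul n
  map_zero' := toep_zero n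
  map_add' := toep_add n
  commutes' := fun a => by
    rw [← PowerSeries.C_eq_algebraMap, toep_C, Algebra.algebraMap_eq_smul_one]

theorem toep_X (n : ℕ) : toep n PowerSeries.X = shiftM n := by
  ext i j
  simp only [toep, shiftM, Matrix.of_apply, PowerSeries.coeff_X, Fin.le_def]
  split_ifs <;> first | rfl | omega

theorem analyticAt_bl {w : ℂ} : AnalyticAt ℂ (bl w) 0 := by
  unfold bl
  refine (analyticAt_id.sub analyticAt_const).div
    (analyticAt_const.sub (analyticAt_const.mul analyticAt_id)) ?_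
  simp

theorem tay_bl {w : ℂ} (hw : ‖w‖ < 1) :
    tay (bl (-w)) * (1 + PowerSeries.C (conj w) * PowerSeries.X) =
      PowerSeries.C w + PowerSeries.X := by
  have e1 : (1 + PowerSeries.C (conj w) * PowerSeries.X : PowerSeries ℂ) =
      tay (fun z => 1 + conj w * z) := by
    rw [tay_add (f := fun _ => 1) (g := fun z => conj w * z) analyticAt_const
      (analyticAt_const.mul analyticAt_id), tay_const,
      tay_const_mul (f := fun z => z) analyticAt_id, tay_id]
    simp
  have e2 : (PowerSeries.C w + PowerSeries.X : PowerSeries ℂ) = tay (fun z => w + z) := by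
    rw [tay_add (f := fun _ => w) (g := fun z => z) analyticAt_const analyticAt_id, tay_const,
      tay_id]
  rw [e1, e2, ← tay_mul (f := bl (-w)) (g := fun z => 1 + conj w * z) analyticAt_bl
    (analyticAt_const.add (analyticAt_const.mul analyticAt_id))]
  refine tay_congr_ball fun z hz => ?_
  have hne := one_sub_ne (a := -w) (by simpa using hw) (mem_ball_zero_iff.mp hz).le
  have e3 : 1 - conj (-w) * z = 1 + conj w * z := by simp only [map_neg]; ring
  unfold bl
  rw [e3] at hne ⊢
  rw [div_mul_cancel₀ _ hne]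
  ring

theorem toep_bl (n : ℕ) {w : ℂ} (hw : ‖w‖ < 1) : toep n (tay (bl (-w))) = modelT n w := by
  set D : PowerSeries ℂ := 1 + PowerSeries.C (conj w) * PowerSeries.X with hD
  have hD0 : PowerSeries.constantCoeff D ≠ 0 := by simp [hD]
  have h1 : toep n D * toep n D⁻¹ = 1 := by
    rw [← toep_mul, PowerSeries.mul_inv_cancel D hD0, toep_one]
  have h2 : toep n D = 1 + conj w • shiftM n := by
    rw [hD, toep_add, toep_one, toep_mul, toep_C, toep_X, smul_mul_assoc, one_mul]
  have h3 : (1 + conj w • shiftM n)⁻¹ = toep n D⁻¹ := by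
    rw [← h2]; exact Matrix.inv_eq_right_inv h1
  have h4 : tay (bl (-w)) = (PowerSeries.C w + PowerSeries.X) * D⁻¹ := by
    rw [← tay_bl hw, mul_assoc, PowerSeries.mul_inv_cancel D hD0, mul_one]
  unfold modelT
  rw [h3, h4, toep_mul, toep_add, toep_C, toep_X]

/-- Local division by `z ^ n`. -/
theorem exists_pow_mul_local {n : ℕ} : ∀ {F : ℂ → ℂ}, AnalyticAt ℂ F 0 →
    (∀ i < n, PowerSeries.coeff i (tay F) = 0) →
    ∃ k : ℂ → ℂ, AnalyticAt ℂ k 0 ∧ ∀ z, F z = z ^ n * k z := by
  induction n with
  | zero =>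
    intro F hF _
    exact ⟨F, hF, fun z => by simp⟩
  | succ n ih =>
    intro F hF h
    have h0 : F 0 = 0 := by
      rw [← constantCoeff_tay F]; exact h 0 (Nat.succ_pos n)
    have hmul : ∀ z, F z = z * dslope F 0 z := by
      intro z
      have := sub_smul_dslope F 0 z
      rw [h0, sub_zero, sub_zero, smul_eq_mul] at this
      exact this.symm
    have han : AnalyticAt ℂ (dslope F 0) 0 := by
      obtain ⟨p, hp⟩ := hF
      exact hp.has_fpower_series_dslope_fslope.analyticAt
    have ht : tay F = PowerSeries.X * tay (dslope F 0) := by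
      rw [← tay_id, ← tay_mul (f := fun z => z) (g := dslope F 0) analyticAt_id han]
      exact tay_congr_ball fun z _ => hmul z
    obtain ⟨k, hk, hkz⟩ := ih han (by
      intro i hi
      have := h (i + 1) (by omega)
      rwa [ht, PowerSeries.coeff_succ_X_mul] at this)
    refine ⟨k, hk, fun z => ?_⟩
    rw [hmul z, hkz z, pow_succ]
    ring

theorem tay_polynomial (P : ℂ[X]) {f : ℂ → ℂ} (hf : AnalyticAt ℂ f 0) :
    tay (fun z => P.eval (f z)) = aeval (tay f) P := by
  have hana : ∀ Q : ℂ[X], AnalyticAt ℂ (fun z => Q.eval (f z)) 0 := by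
    intro Q
    have := hf.aeval_polynomial Q
    simpa using this
  induction P using Polynomial.induction_on with
  | C a => simp [tay_const, PowerSeries.C_eq_algebraMap]
  | add p q hp hq =>
    simp only [eval_add, map_add]
    rw [tay_add (f := fun z => p.eval (f z)) (g := fun z => q.eval (f z)) (hana p) (hana q), hp, hq]
  | monomial m a h =>
    have e : (fun z => (C a * X ^ (m + 1) : ℂ[X]).eval (f z)) =
        fun z => (C a * X ^ m : ℂ[X]).eval (f z) * f z := by
      funext z
      simp only [eval_mul, eval_C, eval_pow, eval_X]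
      ring
    rw [e, tay_mul (f := fun z => (C a * X ^ m : ℂ[X]).eval (f z)) (g := f) (hana _) hf, h]
    simp only [map_mul, aeval_C, map_pow, aeval_X]
    ring

theorem toep_tay_comp (n : ℕ) {h : ℂ → ℂ} {w : ℂ} (hw : ‖w‖ < 1) (hh : AnalyticAt ℂ h w) :
    toep n (tay (fun ζ => h (bl (-w) ζ))) = evalT n h w := by
  -- Taylor polynomial of `h` at `w`
  set a : ℕ → ℂ := fun k => iteratedDeriv k h w / (k.factorial : ℂ) with ha
  set P : ℂ[X] := ∑ k ∈ Finset.range n, C (a k) * X ^ k with hP
  have hbl0 : bl (-w) 0 = w := by simp [bl]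
  have hshift : AnalyticAt ℂ (fun ζ => h (w + ζ)) 0 := by
    have h1 : AnalyticAt ℂ (fun ζ : ℂ => w + ζ) 0 := analyticAt_const.add analyticAt_id
    have h2 : AnalyticAt ℂ h ((fun ζ : ℂ => w + ζ) 0) := by simpa using hh
    exact h2.comp h1
  have hPana : ∀ Q : ℂ[X], AnalyticAt ℂ (fun z : ℂ => Q.eval z) 0 := by
    intro Q
    have := (analyticAt_id (𝕜 := ℂ) (z := (0:ℂ))).aeval_polynomial Q
    simpa using this
  have htP : tay (fun z => P.eval z) = aeval (PowerSeries.X : PowerSeries ℂ) P := by
    have := tay_polynomial P (f := fun z => z) analyticAt_id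
    rwa [tay_id] at this
  have hcP : ∀ i < n, PowerSeries.coeff i (tay (fun z => P.eval z)) = a i := by
    intro i hi
    rw [htP, hP, map_sum, map_sum, Finset.sum_eq_single i]
    · simp only [map_mul, aeval_C, map_pow, aeval_X]
      rw [← PowerSeries.C_eq_algebraMap, PowerSeries.coeff_C_mul, PowerSeries.coeff_X_pow]
      simp
    · intro j _ hji
      simp only [map_mul, aeval_C, map_pow, aeval_X]
      rw [← PowerSeries.C_eq_algebraMap, PowerSeries.coeff_C_mul, PowerSeries.coeff_X_pow]
      rw [if_neg (Ne.symm hji), mul_zero]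
    · intro hi'
      exact absurd (Finset.mem_range.mpr hi) hi'
  have hsub : tay (fun ζ => h (w + ζ) - P.eval ζ) =
      tay (fun ζ => h (w + ζ)) - tay (fun z => P.eval z) := by
    have e : (fun ζ => h (w + ζ) - P.eval ζ) = fun ζ => h (w + ζ) + (-1) * P.eval ζ := by
      funext z; ring
    rw [e, tay_add (f := fun ζ => h (w + ζ)) (g := fun z => (-1) * P.eval z) hshift
      (analyticAt_const.mul (hPana P)), tay_const_mul (hPana P)]
    simp [sub_eq_add_neg]
  obtain ⟨K, hK, hKz⟩ := exists_pow_mul_local (n := n) (F := fun ζ => h (w + ζ) - P.eval ζ)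
    (hshift.sub (hPana P)) (by
      intro i hi
      rw [hsub, map_sub, hcP i hi, coeff_tay]
      have e1 : iteratedDeriv i (fun ζ => h (w + ζ)) 0 = iteratedDeriv i h w := by
        rw [iteratedDeriv_comp_const_add]; simp
      rw [e1, ha]
      simp)
  -- the function `φ - w = ζ s(ζ)`
  set s : ℂ → ℂ := fun ζ => (1 - conj w * w) / (1 - conj (-w) * ζ) with hs
  have hsana : AnalyticAt ℂ s 0 := by
    refine analyticAt_const.div (analyticAt_const.sub (analyticAt_const.mul analyticAt_id)) ?_
    simp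
  have hφana : AnalyticAt ℂ (bl (-w)) 0 := analyticAt_bl
  have hφs : ∀ ζ ∈ ball (0:ℂ) 1, bl (-w) ζ - w = ζ * s ζ := by
    intro ζ hζ
    have hne := one_sub_ne (a := -w) (by simpa using hw) (mem_ball_zero_iff.mp hζ).le
    simp only [hs]
    unfold bl
    rw [div_sub' hne, mul_div_assoc']
    congr 1
    simp only [map_neg]
    ring
  have hfana : AnalyticAt ℂ (fun ζ => bl (-w) ζ - w) 0 := hφana.sub analyticAt_const
  have hKana : AnalyticAt ℂ (fun ζ => K (bl (-w) ζ - w)) 0 := by
    have h1 : AnalyticAt ℂ K ((fun ζ => bl (-w) ζ - w) 0) := by simpa [hbl0] using hK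
    exact AnalyticAt.comp (g := K) (f := fun ζ => bl (-w) ζ - w) (x := 0) h1 hfana
  have hmain : tay (fun ζ => h (bl (-w) ζ)) =
      aeval (tay (fun ζ => bl (-w) ζ - w)) P +
        PowerSeries.X ^ n * tay (fun ζ => s ζ ^ n * K (bl (-w) ζ - w)) := by
    rw [← tay_polynomial P hfana,
      ← tay_pow_mul (k := fun ζ => s ζ ^ n * K (bl (-w) ζ - w)) ((hsana.pow n).mul hKana),
      ← tay_add (f := fun z => P.eval (bl (-w) z - w))
        (g := fun z => z ^ n * (s z ^ n * K (bl (-w) z - w)))]
    · refine tay_congr_ball fun z hz => ?_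
      have h1 := hKz (bl (-w) z - w)
      rw [add_sub_cancel] at h1
      rw [← mul_assoc, ← mul_pow, ← hφs z hz, ← h1]
      ring
    · have := hfana.aeval_polynomial P
      simpa using this
    · exact (analyticAt_id.pow n).mul ((hsana.pow n).mul hKana)
  have hXn : toep n (PowerSeries.X ^ n * tay (fun ζ => s ζ ^ n * K (bl (-w) ζ - w))) = 0 := by
    ext i j
    simp only [toep, Matrix.of_apply, Matrix.zero_apply]
    split_ifs with hij
    · refine (PowerSeries.X_pow_dvd_iff.mp (dvd_mul_right _ _)) _ ?_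
      have := i.2
      omega
    · rfl
  have hφw : toep n (tay (fun ζ => bl (-w) ζ - w)) = modelT n w - w • 1 := by
    have e : (fun ζ => bl (-w) ζ - w) = fun ζ => bl (-w) ζ + (-w) := by funext z; ring
    rw [e, tay_add (f := bl (-w)) (g := fun _ => -w) hφana analyticAt_const, tay_const, toep_add,
      toep_bl n hw, toep_C]
    simp [sub_eq_add_neg]
  rw [hmain, toep_add, hXn, add_zero]
  have h5 : toep n (aeval (tay (fun ζ => bl (-w) ζ - w)) P) =
      aeval (toep n (tay (fun ζ => bl (-w) ζ - w))) P :=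
    (Polynomial.aeval_algHom_apply (toepHom n) (tay (fun ζ => bl (-w) ζ - w)) P).symm
  rw [h5, hφw, hP, map_sum]
  unfold evalT
  refine Finset.sum_congr rfl fun k _ => ?_
  rw [map_mul, aeval_C, map_pow, aeval_X, Algebra.algebraMap_eq_smul_one, smul_mul_assoc, one_mul]

/-- The quotient norm modulo `(z - w)^n` equals `‖h(T_w)‖`. -/
theorem quotNorm_eq_evalT {h : ℂ → ℂ} (hh : MemHinf h) {w : ℂ} (hw : ‖w‖ < 1) (n : ℕ) :
    quotNorm h ((X - C w) ^ n) = ‖Matrix.toEuclideanCLM (𝕜 := ℂ) (evalT n h w)‖ := by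
  have hw' : ‖-w‖ < 1 := by simpa using hw
  have hana : AnalyticAt ℂ h w := hh.1.analyticAt (isOpen_ball.mem_nhds (mem_ball_zero_iff.mpr hw))
  rw [quotNorm_shift hh hw n, ← nodePoly_replicate, quotNorm_replicate_zero (memHinf_comp_bl hh hw'),
    toep_tay_comp n hw hana]

/-- For a power, `h(T_w) = T_w ^ m`. -/
theorem evalT_pow (n m : ℕ) {w : ℂ} (hw : ‖w‖ < 1) :
    evalT n (fun z => z ^ m) w = modelT n w ^ m := by
  rw [← toep_tay_comp (h := fun z => z ^ m) n hw (analyticAt_id.pow m), ← toep_bl n hw,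
    ← toep_pow]
  congr 1
  have := tay_polynomial (X ^ m : ℂ[X]) (f := bl (-w)) analyticAt_bl
  simpa using this

end Pool.MP_cf143d_an.Ptak
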