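import Mathlib

/-!
# Definitions for the extremal problem of `MP_cf143d_an`
-/

open Complex Metric Polynomial
open scoped ComplexConjugate

namespace Pool.MP_cf143d_an.Ptak

/-- `f` (restricted to the open unit disk) is a bounded holomorphic function. -/
def MemHinf (f : ℂ → ℂ) : Prop :=
  DifferentiableOn ℂ f (ball 0 1) ∧ ∃ C : ℝ, ∀ z ∈ ball (0:ℂ) 1, ‖f z‖ ≤ C

/-- The sup norm over the open unit disk. -/
noncomputable def supNorm (f : ℂ → ℂ) : ℝ := ⨆ z : ball (0:ℂ) 1, ‖f z‖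

/-- The norm of the class of `h` in `H^∞ / p H^∞`. -/
noncomputable def quotNorm (h : ℂ → ℂ) (p : ℂ[X]) : ℝ :=
  ⨅ g : {g : ℂ → ℂ // MemHinf g}, supNorm (fun z => h z - p.eval z * g.1 z)

/-- The polynomials of degree `n` all of whose zeros lie in `‖z‖ ≤ r`. -/
def polyClass (n : ℕ) (r : ℝ) : Set ℂ[X] := {p | p.natDegree = n ∧ ∀ z, p.IsRoot z → ‖z‖ ≤ r}

/-- The nilpotent `n × n` lower shift `N`. -/
def shiftM (n : ℕ) : Matrix (Fin n) (Fin n) ℂ :=
  Matrix.of fun i j => if (i : ℕ) = j + 1 then 1 else 0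

/-- The model operator `T_w = (w I + N) (I + \bar w N)⁻¹`. -/
noncomputable def modelT (n : ℕ) (w : ℂ) : Matrix (Fin n) (Fin n) ℂ :=
  (w • 1 + shiftM n) * (1 + conj w • shiftM n)⁻¹

/-- The value `h(T_w)` of the holomorphic functional calculus: since `(T_w - w)^n = 0`, it is
`∑_{k<n} h^{(k)}(w)/k! · (T_w - w I)^k`. -/
noncomputable def evalT (n : ℕ) (h : ℂ → ℂ) (w : ℂ) : Matrix (Fin n) (Fin n) ℂ :=
  ∑ k ∈ Finset.range n, (iteratedDeriv k h w / (k.factorial : ℂ)) • (modelT n w - w • 1) ^ k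

/-- The operator norm of a matrix acting on the Euclidean space `ℂⁿ`. -/
noncomputable def opNorm {n : ℕ} (A : Matrix (Fin n) (Fin n) ℂ) : ℝ :=
  ‖Matrix.toEuclideanCLM (𝕜 := ℂ) A‖

end Pool.MP_cf143d_an.Ptak
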