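import Pool.Agent.Lib.MP_cf143d_an.Quot

/-!
# The coalescence theorem
-/

open Complex Metric Set Filter Topology Polynomial
open scoped ComplexConjugate

namespace Pool.MP_cf143d_an.Ptak

theorem eqOn_ball_of_eqOn_small {h g : ℂ → ℂ} (hh : DifferentiableOn ℂ h (ball 0 1))
    (hg : DifferentiableOn ℂ g (ball 0 1)) {r : ℝ} (hr : 0 < r)
    (H : ∀ z : ℂ, ‖z‖ < r → h z = g z) : ∀ z ∈ ball (0:ℂ) 1, h z = g z := by
  have h1 := (hh.analyticOnNhd isOpen_ball).eqOn_of_preconnected_of_eventuallyEq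
    (hg.analyticOnNhd isOpen_ball) (convex_ball (0:ℂ) 1).isPreconnected
    (mem_ball_self one_pos) (by
      filter_upwards [ball_mem_nhds (0:ℂ) hr] with z hz
      exact H z (mem_ball_zero_iff.mp hz))
  exact fun z hz => h1 hz

theorem eqOn_ball_of_eqOn_seg {h g : ℂ → ℂ} (hh : DifferentiableOn ℂ h (ball 0 1))
    (hg : DifferentiableOn ℂ g (ball 0 1)) {a₁ a₂ : ℂ} (h1 : ‖a₁‖ < 1) (h2 : ‖a₂‖ < 1)
    (hne : a₁ ≠ a₂)
    (H : ∀ t : ℝ, 0 ≤ t → t ≤ 1 → h (seg a₁ a₂ t) = g (seg a₁ a₂ t)) :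
    ∀ z ∈ ball (0:ℂ) 1, h z = g z := by
  have hcont : ContinuousAt (seg a₁ a₂) 0 := by
    unfold seg bl
    refine ContinuousAt.div (by fun_prop) (by fun_prop) ?_
    simp
  have ht : Tendsto (seg a₁ a₂) (𝓝[>] (0:ℝ)) (𝓝[≠] a₁) := by
    rw [tendsto_nhdsWithin_iff]
    refine ⟨?_, ?_⟩
    · have := hcont.tendsto
      rw [seg_zero] at this
      exact this.mono_left nhdsWithin_le_nhds
    · filter_upwards [Ioc_mem_nhdsGT (zero_lt_one' ℝ)] with t ht
      intro he
      have e1 := bl_seg h1 h2 ht.1.le ht.2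
      rw [mem_singleton_iff] at he
      rw [he, bl_self] at e1
      have h3 : (t:ℂ) ≠ 0 := by exact_mod_cast ht.1.ne'
      exact mul_ne_zero h3 (bl_ne_zero h1 h2 hne.symm) e1.symm
  have hfreq : ∃ᶠ z in 𝓝[≠] a₁, h z = g z := by
    refine ht.frequently ?_
    apply Filter.Eventually.frequently
    filter_upwards [Ioc_mem_nhdsGT (zero_lt_one' ℝ)] with t ht
    exact H t ht.1.le ht.2
  have h3 := (hh.analyticOnNhd isOpen_ball).eqOn_of_preconnected_of_frequently_eq
    (hg.analyticOnNhd isOpen_ball) (convex_ball (0:ℂ) 1).isPreconnected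
    (mem_ball_zero_iff.mpr h1) hfreq
  exact fun z hz => h3 hz

/-- Structure of extremal configurations, normalised to extremal value `1`. -/
theorem structure_one {h : ℂ → ℂ} (hh : MemHinf h) {r : ℝ} (hr1 : r < 1)
    {n : ℕ} (hn : 1 ≤ n) {A : Multiset ℂ} (hAc : A.card = n) (hAr : ∀ a ∈ A, ‖a‖ ≤ r)
    (hA1 : quotNorm h (nodePoly A) = 1)
    (hmax : ∀ B : Multiset ℂ, B.card = n → (∀ b ∈ B, ‖b‖ ≤ r) → quotNorm h (nodePoly B) ≤ 1) :
    (∃ w : ℂ, ‖w‖ = r ∧ A = Multiset.replicate n w) ∨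
      (∀ B : Multiset ℂ, B.card = n → (∀ b ∈ B, ‖b‖ < 1) → quotNorm h (nodePoly B) = 1) := by
  have hA' : ∀ a ∈ A, ‖a‖ < 1 := fun a ha => (hAr a ha).trans_lt hr1
  have hI : Interp r (ball 0 1) h n := fun B hB hBr =>
    exists_schur_of_quotNorm_le hh (fun b hb => (hBr b hb).trans_lt hr1) (hmax B hB hBr)
  obtain ⟨g, hg, hc⟩ := hI A hAc hAr
  have hnsA : ¬ Strict A h := by
    rw [strict_iff hh hA', hA1]; exact lt_irrefl 1
  have hnsg : ¬ Strict A g := fun hs => hnsA (hs.congr hc)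
  have hF : closedBall (0:ℂ) r ⊆ ball 0 1 := closedBall_subset_ball hr1
  -- it suffices to prove `h = g`
  have finish : (∀ z ∈ ball (0:ℂ) 1, h z = g z) →
      ∀ B : Multiset ℂ, B.card = n → (∀ b ∈ B, ‖b‖ < 1) → quotNorm h (nodePoly B) = 1 := by
    intro heq B hB hB1
    have h1 : ¬ Strict B g := by
      have := not_strict_of_not_strict hg A B 0 (by rw [hAc, hB]) hA' hB1 (by simp)
        (by simpa using hnsg)
      simpa using this
    have h2 : ¬ Strict B h := fun hs => h1 (hs.congr (Cong.of_eqOn fun z hz => (heq z hz).symm))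
    rw [strict_iff hh hB1, not_lt] at h2
    refine le_antisymm ?_ h2
    refine quotNorm_le_of_cong hh hB1 hg.2 (Cong.of_eqOn heq)
  by_cases hw : ∃ w : ℂ, ‖w‖ = r ∧ A = Multiset.replicate n w
  · exact Or.inl hw
  right
  apply finish
  obtain ⟨a, ha⟩ : ∃ a, a ∈ A := by
    apply Multiset.exists_mem_of_ne_zero
    rintro rfl
    simp at hAc
    omega
  obtain ⟨A', rfl⟩ := Multiset.exists_cons_of_mem ha
  by_cases hall : ∀ b ∈ A', b = a
  · -- all nodes equal, so `‖a‖ < r`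
    have hA'e : A' = Multiset.replicate A'.card a := Multiset.eq_replicate_card.mpr hall
    have har : ‖a‖ < r := by
      refine lt_of_le_of_ne (hAr a ha) fun he => hw ⟨a, he, ?_⟩
      have hcard : n = A'.card + 1 := by rw [← hAc, Multiset.card_cons]
      rw [hcard, Multiset.replicate_succ, ← hA'e]
    have hr0 : 0 < r := (norm_nonneg _).trans_lt har
    set L := A'.toList with hL
    have e : ((L : List ℂ) : Multiset ℂ) = A' := Multiset.coe_toList A'
    have hLlen : L.length + 1 = n := by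
      rw [← hAc, Multiset.card_cons, ← e, Multiset.coe_card]
    have hLr : ∀ b ∈ L, ‖b‖ ≤ r := fun b hb => hAr b (by
      rw [hL, Multiset.mem_toList] at hb; simp [hb])
    rw [← e] at hc hnsg
    have ht := term_of_not_strict hg (hA' a ha) (fun b hb => (hLr b hb).trans_lt hr1) hnsg
    have := rigid_int hr1 L (ball 0 1) h g a isOpen_ball subset_rfl hF hh.1
      (by rw [hLlen]; exact hI) hg hc ht hLr har
    exact eqOn_ball_of_eqOn_small hh.1 hg.1 hr0 this
  · push Not at hall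
    obtain ⟨b, hb, hba⟩ := hall
    obtain ⟨A'', rfl⟩ := Multiset.exists_cons_of_mem hb
    set L := A''.toList with hL
    have e : ((L : List ℂ) : Multiset ℂ) = A'' := Multiset.coe_toList A''
    have hLlen : L.length + 2 = n := by
      rw [← hAc, Multiset.card_cons, Multiset.card_cons, ← e, Multiset.coe_card]
    have hLr : ∀ x ∈ L, ‖x‖ ≤ r := fun x hx => hAr x (by
      rw [hL, Multiset.mem_toList] at hx; simp [hx])
    have har : ‖a‖ ≤ r := hAr a (by simp)
    have hbr : ‖b‖ ≤ r := hAr b (by simp)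
    rw [← e] at hc hnsg
    have ht : Term g (L ++ [a]) := by
      refine term_of_not_strict hg (a := b) (hbr.trans_lt hr1) ?_ ?_
      · intro x hx
        rcases List.mem_append.mp hx with hx | hx
        · exact (hLr x hx).trans_lt hr1
        · rw [List.mem_singleton] at hx; rw [hx]; exact har.trans_lt hr1
      · have e2 : (b ::ₘ ((L ++ [a] : List ℂ) : Multiset ℂ)) = a ::ₘ b ::ₘ (L : Multiset ℂ) := by
          rw [← Multiset.coe_add, Multiset.coe_singleton, add_comm, Multiset.singleton_add,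
            Multiset.cons_swap]
        rw [e2]; exact hnsg
    have := rigid_pair hr1 L (ball 0 1) h g a b isOpen_ball subset_rfl hF hh.1
      (by rw [hLlen]; exact hI) hg hc ht hLr har hbr hba.symm
    exact eqOn_ball_of_eqOn_seg hh.1 hg.1 (har.trans_lt hr1) (hbr.trans_lt hr1) hba.symm this

/-- Structure of extremal configurations. -/
theorem structure_max {h : ℂ → ℂ} (hh : MemHinf h) {r : ℝ} (hr0 : 0 < r) (hr1 : r < 1)
    {n : ℕ} (hn : 1 ≤ n) {A : Multiset ℂ} (hAc : A.card = n) (hAr : ∀ a ∈ A, ‖a‖ ≤ r)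
    (hmax : ∀ B : Multiset ℂ, B.card = n → (∀ b ∈ B, ‖b‖ ≤ r) →
      quotNorm h (nodePoly B) ≤ quotNorm h (nodePoly A)) :
    (∃ w : ℂ, ‖w‖ = r ∧ A = Multiset.replicate n w) ∨
      (∀ B : Multiset ℂ, B.card = n → (∀ b ∈ B, ‖b‖ < 1) →
        quotNorm h (nodePoly B) = quotNorm h (nodePoly A)) := by
  rcases (quotNorm_nonneg h (nodePoly A)).eq_or_lt with hM | hM
  · right
    -- `h` vanishes
    have hz : ∀ z : ℂ, ‖z‖ < r → h z = 0 := by
      intro z hz
      have h1 : quotNorm h (nodePoly (Multiset.replicate n z)) ≤ 0 := by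
        rw [hM]
        exact hmax _ (by simp) (fun b hb => by rw [Multiset.eq_of_mem_replicate hb]; exact hz.le)
      by_contra hne
      have hpos : 0 < ‖h z‖ := norm_pos_iff.mpr hne
      obtain ⟨g, _, C', hC', hb⟩ := exists_of_quotNorm_lt hh (h1.trans_lt hpos)
      have hz1 : z ∈ ball (0:ℂ) 1 := mem_ball_zero_iff.mpr (hz.trans hr1)
      have h2 := hb z hz1
      rw [eval_nodePoly] at h2
      have h3 : nodeProd (Multiset.replicate n z) z = 0 := by
        obtain ⟨m, rfl⟩ : ∃ m, n = m + 1 := ⟨n - 1, by omega⟩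
        rw [Multiset.replicate_succ, nodeProd_cons]; simp
      rw [h3] at h2
      simp only [zero_mul, sub_zero] at h2
      linarith
    have hz' : ∀ z ∈ ball (0:ℂ) 1, h z = 0 :=
      eqOn_ball_of_eqOn_small (g := fun _ => 0) hh.1 (differentiableOn_const _) hr0 hz
    intro B _ _
    rw [← hM]
    apply le_antisymm _ (quotNorm_nonneg _ _)
    refine quotNorm_le memHinf_zero fun z hz => ?_
    rw [hz' z hz]; simp
  · set M := quotNorm h (nodePoly A) with hMdef
    have hMc : ((M⁻¹ : ℝ) : ℂ) ≠ 0 := by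
      exact_mod_cast (inv_pos.mpr hM).ne'
    set h' : ℂ → ℂ := fun z => ((M⁻¹ : ℝ) : ℂ) * h z with hh'
    have hh'm : MemHinf h' := hh.const_mul _
    have hscale : ∀ p : ℂ[X], quotNorm h' p = M⁻¹ * quotNorm h p := by
      intro p
      rw [hh', quotNorm_const_mul hh p hMc, norm_real, Real.norm_of_nonneg (inv_pos.mpr hM).le]
    have h1 := structure_one hh'm hr1 hn hAc hAr
      (by rw [hscale, ← hMdef, inv_mul_cancel₀ hM.ne'])
      (fun B hB hBr => by
        rw [hscale, inv_mul_le_iff₀ hM, mul_one]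
        exact hmax B hB hBr)
    rcases h1 with h1 | h1
    · exact Or.inl h1
    · right
      intro B hB hB1
      have := h1 B hB hB1
      rw [hscale] at this
      field_simp at this
      exact this

/-! ### Existence of a maximiser -/

/-- The multiset of nodes of a tuple. -/
def nodesOf {n : ℕ} (α : Fin n → ℂ) : Multiset ℂ := (List.ofFn α : Multiset ℂ)

theorem nodeProd_nodesOf {n : ℕ} (α : Fin n → ℂ) (z : ℂ) :
    nodeProd (nodesOf α) z = ∏ i, (z - α i) := by
  unfold nodeProd nodesOf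
  rw [Multiset.map_coe, Multiset.prod_coe, List.map_ofFn, List.prod_ofFn]
  rfl

theorem card_nodesOf {n : ℕ} (α : Fin n → ℂ) : (nodesOf α).card = n := by
  simp [nodesOf]

theorem mem_nodesOf {n : ℕ} {α : Fin n → ℂ} {a : ℂ} (ha : a ∈ nodesOf α) : ∃ i, α i = a := by
  simpa [nodesOf, List.mem_ofFn] using ha

theorem exists_nodesOf {n : ℕ} {A : Multiset ℂ} (hA : A.card = n) :
    ∃ α : Fin n → ℂ, nodesOf α = A := by
  subst hA
  have hl : A.toList.length = A.card := Multiset.length_toList A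
  refine ⟨fun i => A.toList.get (Fin.cast hl.symm i), ?_⟩
  have : List.ofFn (fun i : Fin A.card => A.toList.get (Fin.cast hl.symm i)) = A.toList := by
    apply List.ext_get
    · simp
    · intro i h1 h2
      simp
  unfold nodesOf
  rw [this, Multiset.coe_toList]

theorem usc {h : ℂ → ℂ} (hh : MemHinf h) (n : ℕ) :
    UpperSemicontinuous (fun α : Fin n → ℂ => quotNorm h (nodePoly (nodesOf α))) := by
  intro α₀ y hy
  obtain ⟨g, hg, C', hC', hb⟩ := exists_of_quotNorm_lt hh hy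
  obtain ⟨K, hK⟩ := hg.2
  have hK0 : 0 ≤ K := (norm_nonneg _).trans (hK 0 (by simp))
  set ε := (y - C') / (2 * (K + 1)) with hε
  have hεpos : 0 < ε := by
    have : 0 < y - C' := by linarith
    positivity
  have hev : ∀ᶠ α in 𝓝 α₀, ∀ z ∈ closedBall (0:ℂ) 1,
      ‖(∏ i, (z - α i)) - ∏ i, (z - α₀ i)‖ < ε := by
    refine (isCompact_closedBall (0:ℂ) 1).eventually_forall_of_forall_eventually ?_
    intro z _
    have hcont : Continuous (fun p : (Fin n → ℂ) × ℂ =>
        ‖(∏ i, (p.2 - p.1 i)) - ∏ i, (p.2 - α₀ i)‖) := by fun_prop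
    have h0 : (fun p : (Fin n → ℂ) × ℂ =>
        ‖(∏ i, (p.2 - p.1 i)) - ∏ i, (p.2 - α₀ i)‖) (α₀, z) = 0 := by simp
    have hlt : (fun p : (Fin n → ℂ) × ℂ =>
        ‖(∏ i, (p.2 - p.1 i)) - ∏ i, (p.2 - α₀ i)‖) (α₀, z) < ε := by rw [h0]; exact hεpos
    exact (hcont.tendsto (α₀, z)).eventually_lt_const hlt
  filter_upwards [hev] with α hα
  have hle : quotNorm h (nodePoly (nodesOf α)) ≤ C' + ε * K := by
    refine quotNorm_le hg fun z hz => ?_
    have h1 := hb z hz
    rw [eval_nodePoly, nodeProd_nodesOf] at h1 ⊢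
    have h2 := hα z (ball_subset_closedBall hz)
    calc ‖h z - (∏ i, (z - α i)) * g z‖
        = ‖(h z - (∏ i, (z - α₀ i)) * g z) -
            ((∏ i, (z - α i)) - ∏ i, (z - α₀ i)) * g z‖ := by congr 1; ring
      _ ≤ ‖h z - (∏ i, (z - α₀ i)) * g z‖ +
            ‖((∏ i, (z - α i)) - ∏ i, (z - α₀ i)) * g z‖ := norm_sub_le _ _
      _ ≤ C' + ε * K := by
        rw [norm_mul]
        exact add_le_add h1 (mul_le_mul h2.le (hK z hz) (norm_nonneg _) hεpos.le)
  refine hle.trans_lt ?_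
  have h3 : ε * K < y - C' := by
    rw [hε, div_mul_eq_mul_div, div_lt_iff₀ (by positivity)]
    have : 0 < y - C' := by linarith
    nlinarith
  linarith

theorem exists_max {h : ℂ → ℂ} (hh : MemHinf h) {r : ℝ} (hr0 : 0 ≤ r) (n : ℕ) :
    ∃ A : Multiset ℂ, A.card = n ∧ (∀ a ∈ A, ‖a‖ ≤ r) ∧
      ∀ B : Multiset ℂ, B.card = n → (∀ b ∈ B, ‖b‖ ≤ r) →
        quotNorm h (nodePoly B) ≤ quotNorm h (nodePoly A) := by
  set K : Set (Fin n → ℂ) := Set.univ.pi fun _ => closedBall (0:ℂ) r with hK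
  have hKc : IsCompact K := isCompact_univ_pi fun _ => isCompact_closedBall _ _
  have hKn : K.Nonempty := ⟨fun _ => 0, fun i _ => by simpa using hr0⟩
  obtain ⟨α, hα, hmax⟩ := UpperSemicontinuousOn.exists_isMaxOn hKn hKc
    ((usc hh n).upperSemicontinuousOn K)
  refine ⟨nodesOf α, card_nodesOf α, ?_, ?_⟩
  · intro a ha
    obtain ⟨i, rfl⟩ := mem_nodesOf ha
    simpa using hα i (mem_univ i)
  · intro B hB hBr
    obtain ⟨β, rfl⟩ := exists_nodesOf hB
    apply hmax
    intro i _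
    rw [mem_closedBall_zero_iff]
    apply hBr
    simp [nodesOf, List.mem_ofFn]

/-- **Coalescence theorem**: the maximum is attained at an `n`-fold node on `‖w‖ = r`. -/
theorem exists_coalesced_max {h : ℂ → ℂ} (hh : MemHinf h) {r : ℝ} (hr0 : 0 < r) (hr1 : r < 1)
    {n : ℕ} (hn : 1 ≤ n) :
    ∃ w : ℂ, ‖w‖ = r ∧ ∀ B : Multiset ℂ, B.card = n → (∀ b ∈ B, ‖b‖ ≤ r) →
        quotNorm h (nodePoly B) ≤ quotNorm h (nodePoly (Multiset.replicate n w)) := by
  obtain ⟨A, hAc, hAr, hmax⟩ := exists_max hh hr0.le n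
  rcases structure_max hh hr0 hr1 hn hAc hAr hmax with ⟨w, hw, rfl⟩ | hconst
  · exact ⟨w, hw, hmax⟩
  · have hrn : ‖(r:ℂ)‖ = r := by rw [norm_real, Real.norm_of_nonneg hr0.le]
    refine ⟨(r:ℂ), hrn, fun B hB hBr => ?_⟩
    rw [hconst (Multiset.replicate n (r:ℂ)) (by simp)
      (fun b hb => by rw [Multiset.eq_of_mem_replicate hb, hrn]; exact hr1)]
    exact hmax B hB hBr

end Pool.MP_cf143d_an.Ptak
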