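import Mathlib

/-!
# Möbius maps, the Schur class and the Schur step

Elementary tools for `MP_cf143d_an`.
-/

open Complex Metric Set Filter Topology
open scoped ComplexConjugate

namespace Pool.MP_cf143d_an.Ptak

/-- The Möbius map `x ↦ (x + γ) / (1 + \bar γ x)`. -/
noncomputable def mob (γ x : ℂ) : ℂ := (x + γ) / (1 + conj γ * x)

/-- The Blaschke factor `z ↦ (z - a) / (1 - \bar a z)`. -/
noncomputable def bl (a z : ℂ) : ℂ := (z - a) / (1 - conj a * z)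

theorem one_add_ne {γ x : ℂ} (hγ : ‖γ‖ < 1) (hx : ‖x‖ ≤ 1) : 1 + conj γ * x ≠ 0 := by
  intro h
  have h1 : conj γ * x = -1 := by linear_combination h
  have h2 : ‖conj γ * x‖ = 1 := by rw [h1]; simp
  rw [norm_mul, RCLike.norm_conj] at h2
  nlinarith [norm_nonneg γ, norm_nonneg x]

theorem one_sub_ne {a z : ℂ} (ha : ‖a‖ < 1) (hz : ‖z‖ ≤ 1) : 1 - conj a * z ≠ 0 := by
  have := one_add_ne (γ := -a) (x := z) (by simpa using ha) hz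
  simpa [sub_eq_add_neg] using this

theorem bl_eq_mob (a z : ℂ) : bl a z = mob (-a) z := by
  simp [bl, mob, sub_eq_add_neg]

theorem normSq_mob_aux (γ x : ℂ) :
    normSq (1 + conj γ * x) - normSq (x + γ) = (1 - normSq γ) * (1 - normSq x) := by
  simp only [normSq_apply, add_re, add_im, one_re, one_im, mul_re, mul_im, conj_re, conj_im]
  ring

theorem norm_mob_sq (γ x : ℂ) :
    ‖1 + conj γ * x‖ ^ 2 - ‖x + γ‖ ^ 2 = (1 - ‖γ‖ ^ 2) * (1 - ‖x‖ ^ 2) := by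
  have := normSq_mob_aux γ x
  simpa only [normSq_eq_norm_sq] using this

theorem norm_mob_le {γ x : ℂ} (hγ : ‖γ‖ < 1) (hx : ‖x‖ ≤ 1) : ‖mob γ x‖ ≤ 1 := by
  have h1 := norm_mob_sq γ x
  have h2 : 0 ≤ (1 - ‖γ‖ ^ 2) * (1 - ‖x‖ ^ 2) := by
    apply mul_nonneg <;> nlinarith [norm_nonneg γ, norm_nonneg x]
  have h3 : ‖x + γ‖ ≤ ‖1 + conj γ * x‖ := by
    apply le_of_sq_le_sq _ (norm_nonneg _)
    linarith
  unfold mob
  rw [norm_div]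
  exact div_le_one_of_le₀ h3 (norm_nonneg _)

theorem norm_mob_lt {γ x : ℂ} (hγ : ‖γ‖ < 1) (hx : ‖x‖ < 1) : ‖mob γ x‖ < 1 := by
  have h1 := norm_mob_sq γ x
  have h2 : 0 < (1 - ‖γ‖ ^ 2) * (1 - ‖x‖ ^ 2) := by
    apply mul_pos <;> nlinarith [norm_nonneg γ, norm_nonneg x]
  have h3 : ‖x + γ‖ < ‖1 + conj γ * x‖ := by
    apply lt_of_pow_lt_pow_left₀ 2 (norm_nonneg _)
    linarith
  unfold mob
  rw [norm_div]
  rw [div_lt_one (lt_of_le_of_lt (norm_nonneg _) h3)]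
  exact h3

/-- Quantitative version: `‖mob γ x‖ ≤ (ρ + ‖γ‖) / (1 + ρ ‖γ‖)` for `‖x‖ ≤ ρ ≤ 1`;
we only record that a uniform bound `< 1` exists. -/
theorem exists_bound_mob {γ : ℂ} (hγ : ‖γ‖ < 1) {ρ : ℝ} (hρ0 : 0 ≤ ρ) (hρ : ρ < 1) :
    ∃ ρ' : ℝ, 0 ≤ ρ' ∧ ρ' < 1 ∧ ∀ x : ℂ, ‖x‖ ≤ ρ → ‖mob γ x‖ ≤ ρ' := by
  -- 1 - |mob|^2 = (1-|γ|^2)(1-|x|^2)/|1+..|^2 ≥ (1-|γ|^2)(1-ρ^2)/4
  set δ : ℝ := (1 - ‖γ‖ ^ 2) * (1 - ρ ^ 2) / 4 with hδ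
  have hg : 0 < 1 - ‖γ‖ ^ 2 := by nlinarith [norm_nonneg γ]
  have hr : 0 < 1 - ρ ^ 2 := by nlinarith
  have hg1 : 1 - ‖γ‖ ^ 2 ≤ 1 := by nlinarith [norm_nonneg γ]
  have hr1 : 1 - ρ ^ 2 ≤ 1 := by nlinarith
  have hδ0 : 0 < δ := by positivity
  have hδ1 : δ ≤ 1 := by
    have : (1 - ‖γ‖ ^ 2) * (1 - ρ ^ 2) ≤ 1 := by nlinarith
    rw [hδ]; linarith
  refine ⟨Real.sqrt (1 - δ), Real.sqrt_nonneg _, ?_, ?_⟩
  · rw [Real.sqrt_lt' one_pos]; linarith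
  · intro x hx
    apply Real.le_sqrt_of_sq_le
    have hx1 : ‖x‖ ≤ 1 := hx.trans hρ.le
    have hne := one_add_ne hγ hx1
    have hpos : 0 < ‖1 + conj γ * x‖ := norm_pos_iff.mpr hne
    have h1 := norm_mob_sq γ x
    have h4 : ‖1 + conj γ * x‖ ≤ 2 := by
      calc ‖1 + conj γ * x‖ ≤ ‖(1:ℂ)‖ + ‖conj γ * x‖ := norm_add_le _ _
        _ = 1 + ‖γ‖ * ‖x‖ := by rw [norm_mul, RCLike.norm_conj]; simp
        _ ≤ 2 := by nlinarith [norm_nonneg γ, norm_nonneg x]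
    have h5 : (1 - ρ ^ 2) ≤ 1 - ‖x‖ ^ 2 := by nlinarith [norm_nonneg x]
    unfold mob
    rw [norm_div, div_pow, div_le_iff₀ (by positivity)]
    have h6 : (1 - ‖γ‖ ^ 2) * (1 - ρ ^ 2) ≤ (1 - ‖γ‖ ^ 2) * (1 - ‖x‖ ^ 2) :=
      mul_le_mul_of_nonneg_left h5 hg.le
    have h7 : δ * ‖1 + conj γ * x‖ ^ 2 ≤ (1 - ‖γ‖ ^ 2) * (1 - ρ ^ 2) := by
      have : ‖1 + conj γ * x‖ ^ 2 ≤ 4 := by nlinarith
      rw [hδ]
      nlinarith [mul_pos hg hr]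
    nlinarith

theorem mob_aux_den {γ g x : ℂ} (h1 : 1 + g * x ≠ 0) :
    1 + -g * ((x + γ) / (1 + g * x)) = (1 - g * γ) / (1 + g * x) := by
  rw [eq_div_iff h1, add_mul, mul_assoc, div_mul_cancel₀ _ h1]; ring

theorem mob_aux {γ g x : ℂ} (h1 : 1 + g * x ≠ 0) (h4 : 1 - g * γ ≠ 0) :
    ((x + γ) / (1 + g * x) + -γ) / (1 + -g * ((x + γ) / (1 + g * x))) = x := by
  rw [mob_aux_den h1, div_add' _ _ _ h1, div_div_div_cancel_right₀ h1, div_eq_iff h4]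
  ring

/-- Version of `mob_mob_neg` for arbitrary `x` off the pole. -/
theorem mob_neg_mob' {γ x : ℂ} (hγ : ‖γ‖ < 1) (hx : 1 + conj γ * x ≠ 0) :
    mob (-γ) (mob γ x) = x := by
  have h4 : (1:ℂ) - conj γ * γ ≠ 0 := one_sub_ne (a := γ) (z := γ) hγ hγ.le
  unfold mob
  rw [map_neg]
  exact mob_aux hx h4

theorem mob_mob_neg' {γ x : ℂ} (hγ : ‖γ‖ < 1) (hx : 1 - conj γ * x ≠ 0) :
    mob γ (mob (-γ) x) = x := by
  have := mob_neg_mob' (γ := -γ) (x := x) (by simpa using hγ)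
    (by simpa [sub_eq_add_neg] using hx)
  simpa using this

theorem mob_neg_mob {γ x : ℂ} (hγ : ‖γ‖ < 1) (hx : ‖x‖ ≤ 1) : mob (-γ) (mob γ x) = x :=
  mob_neg_mob' hγ (one_add_ne hγ hx)

theorem mob_mob_neg {γ x : ℂ} (hγ : ‖γ‖ < 1) (hx : ‖x‖ ≤ 1) : mob γ (mob (-γ) x) = x :=
  mob_mob_neg' hγ (one_sub_ne hγ hx)

theorem one_add_mob_neg_ne {γ x : ℂ} (hγ : ‖γ‖ < 1) (hx : 1 - conj γ * x ≠ 0) :
    1 + conj γ * mob (-γ) x ≠ 0 := by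
  have h4 : (1:ℂ) - conj γ * γ ≠ 0 := one_sub_ne (a := γ) (z := γ) hγ hγ.le
  have h5 : 1 + -conj γ * x ≠ 0 := by
    simpa [sub_eq_add_neg] using hx
  unfold mob
  rw [map_neg]
  have h := mob_aux_den (γ := -γ) (g := -conj γ) (x := x) h5
  rw [neg_neg] at h
  rw [h]
  apply div_ne_zero _ h5
  simpa using h4

theorem mob_zero (γ : ℂ) : mob γ 0 = γ := by simp [mob]

theorem mob_neg_self {γ : ℂ} : mob (-γ) γ = 0 := by simp [mob]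

theorem norm_mob_eq_one {γ x : ℂ} (hγ : ‖γ‖ < 1) (hx : ‖x‖ = 1) : ‖mob γ x‖ = 1 := by
  have h1 := norm_mob_sq γ x
  rw [hx] at h1
  have hne := one_add_ne hγ hx.le
  have h3 : ‖x + γ‖ = ‖1 + conj γ * x‖ := by
    have h2 : ‖x + γ‖ ^ 2 = ‖1 + conj γ * x‖ ^ 2 := by linarith
    exact (pow_left_inj₀ (norm_nonneg _) (norm_nonneg _) two_ne_zero).mp h2
  unfold mob
  rw [norm_div, h3, div_self (norm_ne_zero_iff.mpr hne)]

theorem norm_bl_lt {a z : ℂ} (ha : ‖a‖ < 1) (hz : ‖z‖ < 1) : ‖bl a z‖ < 1 := by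
  rw [bl_eq_mob]; exact norm_mob_lt (by simpa using ha) hz

theorem bl_self (a : ℂ) : bl a a = 0 := by simp [bl]

theorem bl_ne_zero {a z : ℂ} (ha : ‖a‖ < 1) (hz : ‖z‖ < 1) (h : z ≠ a) : bl a z ≠ 0 := by
  unfold bl
  exact div_ne_zero (sub_ne_zero.mpr h) (one_sub_ne ha hz.le)

theorem bl_neg_bl {a z : ℂ} (ha : ‖a‖ < 1) (hz : ‖z‖ ≤ 1) : bl (-a) (bl a z) = z := by
  rw [bl_eq_mob, bl_eq_mob, neg_neg]
  exact mob_mob_neg ha hz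

theorem bl_bl_neg {a z : ℂ} (ha : ‖a‖ < 1) (hz : ‖z‖ ≤ 1) : bl a (bl (-a) z) = z := by
  have := bl_neg_bl (a := -a) (z := z) (by simpa using ha) hz
  simpa using this

theorem differentiableOn_mob_comp {γ : ℂ} {f : ℂ → ℂ} {U : Set ℂ}
    (hf : DifferentiableOn ℂ f U) (h : ∀ z ∈ U, 1 + conj γ * f z ≠ 0) :
    DifferentiableOn ℂ (fun z => mob γ (f z)) U := by
  unfold mob
  exact (hf.add_const _).div ((hf.const_mul _).const_add _) h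

theorem differentiableOn_bl {a : ℂ} (ha : ‖a‖ < 1) {U : Set ℂ} (hU : U ⊆ ball 0 1) :
    DifferentiableOn ℂ (bl a) U := by
  unfold bl
  refine (differentiableOn_id.sub_const _).div ((differentiableOn_id.const_mul _).const_sub _) ?_
  intro z hz
  exact one_sub_ne ha (by simpa using (mem_ball_zero_iff.mp (hU hz)).le)

end Pool.MP_cf143d_an.Ptak
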