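import Mathlib

/-!
# A light version of Montel's theorem (limits along an ultrafilter)
-/

open Complex Metric Set Filter Topology

namespace Pool.MP_cf143d_an.Ptak

theorem taylor_coeff_bound {C : ℝ} {f : ℂ → ℂ} (hf : DifferentiableOn ℂ f (ball 0 1))
    (hb : ∀ z ∈ ball (0:ℂ) 1, ‖f z‖ ≤ C) (k : ℕ) {R : ℝ} (hR0 : 0 < R) (hR1 : R < 1) :
    ‖((k.factorial : ℂ))⁻¹ * iteratedDeriv k f 0‖ ≤ C / R ^ k := by
  have hsub : closedBall (0:ℂ) R ⊆ ball 0 1 := closedBall_subset_ball hR1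
  have h := norm_iteratedDeriv_le_of_forall_mem_sphere_norm_le k hR0
    (hf.diffContOnCl_ball hsub) (C := C)
    (fun z hz => hb z (hsub (sphere_subset_closedBall hz)))
  rw [norm_mul, norm_inv, norm_natCast]
  have hk : (0:ℝ) < (k.factorial : ℝ) := by positivity
  rw [inv_mul_le_iff₀ hk]
  calc ‖iteratedDeriv k f 0‖ ≤ k.factorial * C / R ^ k := h
    _ = k.factorial * (C / R ^ k) := by ring

theorem montel_lite {C : ℝ} {f : ℕ → ℂ → ℂ}
    (hf : ∀ n, DifferentiableOn ℂ (f n) (ball 0 1))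
    (hb : ∀ n, ∀ z ∈ ball (0:ℂ) 1, ‖f n z‖ ≤ C) :
    ∃ F : ℂ → ℂ, DifferentiableOn ℂ F (ball 0 1) ∧ ∀ z ∈ ball (0:ℂ) 1,
      Tendsto (fun n => f n z) (Filter.hyperfilter ℕ : Filter ℕ) (𝓝 (F z)) := by
  classical
  set c : ℕ → ℕ → ℂ := fun n k => ((k.factorial : ℂ))⁻¹ * iteratedDeriv k (f n) 0 with hc
  have hcb : ∀ (n k : ℕ) {R : ℝ}, 0 < R → R < 1 → ‖c n k‖ ≤ C / R ^ k :=
    fun n k R h0 h1 => taylor_coeff_bound (hf n) (hb n) k h0 h1
  have hlim : ∀ k : ℕ, ∃ a : ℂ, Tendsto (fun n => c n k) (Filter.hyperfilter ℕ : Filter ℕ) (𝓝 a) := by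
    intro k
    have hcomp := isCompact_closedBall (0:ℂ) (C / (1/2 : ℝ) ^ k)
    have hle : ((Filter.hyperfilter ℕ).map (fun n => c n k) : Filter ℂ) ≤
        𝓟 (closedBall (0:ℂ) (C / (1/2 : ℝ) ^ k)) := by
      rw [le_principal_iff, Ultrafilter.coe_map]
      refine Filter.mem_map.mpr (Filter.univ_mem' fun n => ?_)
      rw [mem_preimage, mem_closedBall_zero_iff]
      exact hcb n k (by norm_num) (by norm_num)
    obtain ⟨a, _, ha⟩ := hcomp.ultrafilter_le_nhds ((Filter.hyperfilter ℕ).map (fun n => c n k)) hle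
    exact ⟨a, ha⟩
  choose a ha using hlim
  have hab : ∀ (k : ℕ) {R : ℝ}, 0 < R → R < 1 → ‖a k‖ ≤ C / R ^ k := by
    intro k R h0 h1
    exact le_of_tendsto (ha k).norm (Filter.Eventually.of_forall fun n => hcb n k h0 h1)
  have hC : 0 ≤ C := (norm_nonneg _).trans (hb 0 0 (by simp))
  have hbound : ∀ {x : ℂ} {d : ℂ} {k : ℕ} {R ρ : ℝ}, 0 < R → ‖x‖ ≤ C / R ^ k → ‖d‖ ≤ ρ →
      ‖x * d ^ k‖ ≤ C * (ρ / R) ^ k := by
    intro x d k R ρ hR hx hd
    rw [norm_mul, norm_pow, div_pow]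
    have h1 : ‖d‖ ^ k ≤ ρ ^ k := pow_le_pow_left₀ (norm_nonneg _) hd k
    have h2 : 0 ≤ C / R ^ k := by positivity
    calc ‖x‖ * ‖d‖ ^ k ≤ (C / R ^ k) * ρ ^ k :=
          mul_le_mul hx h1 (by positivity) h2
      _ = C * (ρ ^ k / R ^ k) := by ring
  have hsumm : ∀ {ρ R : ℝ}, 0 ≤ ρ → ρ < R → Summable (fun k : ℕ => C * (ρ / R) ^ k) := by
    intro ρ R h0 h1
    have hR : 0 < R := lt_of_le_of_lt h0 h1
    exact (summable_geometric_of_lt_one (div_nonneg h0 hR.le) ((div_lt_one hR).mpr h1)).mul_left C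
  refine ⟨fun z => ∑' k, a k * z ^ k, ?_, ?_⟩
  · intro z0 hz0
    have hz0' : ‖z0‖ < 1 := mem_ball_zero_iff.mp hz0
    obtain ⟨ρ, hρ1, hρ2⟩ := exists_between hz0'
    obtain ⟨R, hR1, hR2⟩ := exists_between hρ2
    have hρ0 : 0 ≤ ρ := (norm_nonneg _).trans hρ1.le
    have hR0 : 0 < R := lt_of_le_of_lt hρ0 hR1
    have hd := differentiableOn_tsum_of_summable_norm (U := ball (0:ℂ) ρ)
      (F := fun (k : ℕ) (z : ℂ) => a k * z ^ k) (hsumm hρ0 hR1)
      (fun k => ((differentiable_id.pow k).const_mul (a k)).differentiableOn) isOpen_ball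
      (fun k w hw => hbound hR0 (hab k hR0 hR2) (mem_ball_zero_iff.mp hw).le)
    exact (hd.differentiableAt (isOpen_ball.mem_nhds
      (mem_ball_zero_iff.mpr hρ1))).differentiableWithinAt
  · intro z hz
    have hz' : ‖z‖ < 1 := mem_ball_zero_iff.mp hz
    obtain ⟨R, hR1, hR2⟩ := exists_between hz'
    have hR0 : 0 < R := lt_of_le_of_lt (norm_nonneg _) hR1
    have hts : ∀ n, f n z = ∑' k, c n k * z ^ k := by
      intro n
      have h := hasSum_taylorSeries_on_ball (hf n) hz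
      rw [← h.tsum_eq]
      congr 1
      funext k
      simp only [hc, sub_zero, smul_eq_mul]
      ring
    simp only [hts]
    refine tendsto_tsum_of_dominated_convergence (bound := fun k : ℕ => C * (‖z‖ / R) ^ k)
      (hsumm (norm_nonneg _) hR1) (fun k => (ha k).mul_const _) ?_
    exact Filter.Eventually.of_forall fun n k => hbound hR0 (hcb n k hR0 hR2) le_rfl

end Pool.MP_cf143d_an.Ptak
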