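import Pool.Agent.Lib.MP_cf143d_an.Term

/-!
# Rigidity of extremal configurations
-/

open Complex Metric Set Filter Topology
open scoped ComplexConjugate

namespace Pool.MP_cf143d_an.Ptak

/-- All `n`-point interpolation problems for `h` with nodes in `‖z‖ ≤ r` are solvable in the
Schur class. -/
def Interp (r : ℝ) (U : Set ℂ) (h : ℂ → ℂ) (n : ℕ) : Prop :=
  ∀ A : Multiset ℂ, A.card = n → (∀ a ∈ A, ‖a‖ ≤ r) → ∃ g, IsSchur g ∧ Cong U A h g

theorem Interp.norm_le {r : ℝ} {U : Set ℂ} {h : ℂ → ℂ} {n : ℕ} (H : Interp r U h (n + 1))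
    (hU : U ⊆ ball 0 1) (hF : closedBall 0 r ⊆ U) {z : ℂ} (hz : ‖z‖ ≤ r) : ‖h z‖ ≤ 1 := by
  obtain ⟨g, hg, hc⟩ := H (Multiset.replicate (n + 1) z) (by simp)
    (fun a ha => by rw [Multiset.eq_of_mem_replicate ha]; exact hz)
  have hzU : z ∈ U := hF (by simpa using hz)
  rw [hc.eval (a := z) (by simp) hzU]
  exact hg.2 z (hU hzU)

theorem Interp.const {r : ℝ} {U : Set ℂ} {h : ℂ → ℂ} {n : ℕ} (H : Interp r U h (n + 2))
    (hU : U ⊆ ball 0 1) (hF : closedBall 0 r ⊆ U) {b : ℂ} (hb : ‖b‖ ≤ r) (hb1 : ‖h b‖ = 1)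
    {z : ℂ} (hz : ‖z‖ ≤ r) : h z = h b := by
  obtain ⟨g, hg, hc⟩ := H (z ::ₘ b ::ₘ Multiset.replicate n b) (by simp) (by
    intro a ha
    rcases Multiset.mem_cons.mp ha with rfl | ha
    · exact hz
    rcases Multiset.mem_cons.mp ha with rfl | ha
    · exact hb
    · rw [Multiset.eq_of_mem_replicate ha]; exact hb)
  have hzU : z ∈ U := hF (by simpa using hz)
  have hbU : b ∈ U := hF (by simpa using hb)
  have h1 : h z = g z := hc.eval (by simp) hzU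
  have h2 : h b = g b := hc.eval (by simp) hbU
  rw [h1, h2]
  exact hg.const_of_norm_eq (mem_ball_zero_iff.mp (hU hbU)) (by rw [← h2]; exact hb1) z
    (mem_ball_zero_iff.mp (hU hzU))

theorem Interp.down {r : ℝ} {U : Set ℂ} {h : ℂ → ℂ} {n : ℕ} (H : Interp r U h (n + 1))
    (hUo : IsOpen U) (hU : U ⊆ ball 0 1) (hF : closedBall 0 r ⊆ U)
    (hd : DifferentiableOn ℂ h U) {b : ℂ} (hb : ‖b‖ ≤ r) (hb1 : ‖h b‖ < 1) :
    ∃ (U₁ : Set ℂ) (h₁ : ℂ → ℂ), IsOpen U₁ ∧ U₁ ⊆ U ∧ closedBall 0 r ⊆ U₁ ∧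
      DifferentiableOn ℂ h₁ U₁ ∧ (∀ z ∈ U₁, 1 + conj (h b) * (bl b z * h₁ z) ≠ 0) ∧
      (∀ z ∈ U₁, h z = up b (h b) h₁ z) ∧ Interp r U₁ h₁ n := by
  set γ := h b with hγ
  have hγ' : ‖-γ‖ < 1 := by simpa using hb1
  set U₁ : Set ℂ := U ∩ {z | 1 - conj γ * h z ≠ 0} with hU₁
  have hcont : ContinuousOn (fun z => 1 - conj γ * h z) U :=
    continuousOn_const.sub (continuousOn_const.mul hd.continuousOn)
  have hU₁o : IsOpen U₁ := by
    have := hcont.isOpen_inter_preimage hUo (isOpen_compl_singleton (x := (0:ℂ)))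
    have e : U₁ = U ∩ (fun z => 1 - conj γ * h z) ⁻¹' {(0:ℂ)}ᶜ := by
      ext z; simp [hU₁]
    rw [e]; exact this
  have hU₁U : U₁ ⊆ U := inter_subset_left
  have hFU₁ : closedBall 0 r ⊆ U₁ := by
    intro z hz
    refine ⟨hF hz, ?_⟩
    exact one_sub_ne hb1 (H.norm_le hU hF (by simpa using hz))
  have hbU₁ : b ∈ U₁ := hFU₁ (by simpa using hb)
  set G : ℂ → ℂ := fun z => mob (-γ) (h z) with hG
  have hGd : DifferentiableOn ℂ G U₁ := by
    refine differentiableOn_mob_comp (hd.mono hU₁U) ?_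
    intro z hz
    have := hz.2
    simpa [sub_eq_add_neg] using this
  have hGb : G b = 0 := by simp only [hG, ← hγ]; exact mob_neg_self
  set h₁ : ℂ → ℂ := fun z => (1 - conj b * z) * dslope G b z with hh₁
  have hh₁d : DifferentiableOn ℂ h₁ U₁ :=
    ((differentiableOn_id.const_mul _).const_sub _).mul
      ((Complex.differentiableOn_dslope (hU₁o.mem_nhds hbU₁)).mpr hGd)
  have hb1' : ‖b‖ < 1 := mem_ball_zero_iff.mp (hU (hU₁U hbU₁))
  have hblG : ∀ z ∈ U₁, bl b z * h₁ z = G z := by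
    intro z hz
    have h3 := one_sub_ne hb1' (mem_ball_zero_iff.mp (hU (hU₁U hz))).le
    have h4 := sub_smul_dslope G b z
    rw [hGb, sub_zero, smul_eq_mul] at h4
    rw [← h4]
    simp only [hh₁]
    unfold bl
    rw [div_mul_eq_mul_div, ← mul_assoc, mul_comm (z - b), mul_assoc, mul_div_cancel_left₀ _ h3]
  have hden : ∀ z ∈ U₁, 1 + conj γ * (bl b z * h₁ z) ≠ 0 := by
    intro z hz
    rw [hblG z hz]
    exact one_add_mob_neg_ne hb1 hz.2
  have hup : ∀ z ∈ U₁, h z = up b γ h₁ z := by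
    intro z hz
    unfold up
    rw [hblG z hz]
    exact (mob_mob_neg' hb1 hz.2).symm
  refine ⟨U₁, h₁, hU₁o, hU₁U, hFU₁, hh₁d, hden, hup, ?_⟩
  intro A hA hAr
  obtain ⟨g, hg, hc⟩ := H (b ::ₘ A) (by simp [hA]) (by
    intro a ha
    rcases Multiset.mem_cons.mp ha with rfl | ha
    · exact hb
    · exact hAr a ha)
  have hgb : g b = γ := (hc.eval (by simp) (hU₁U hbU₁)).symm
  obtain ⟨u, hu, hgu⟩ := hg.exists_down hb1' (by rw [hgb]; exact hb1)
  rw [hgb] at hgu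
  refine ⟨u, hu, ?_⟩
  have hU₁b : U₁ ⊆ ball 0 1 := hU₁U.trans hU
  refine Cong.down hU₁o hU₁b hbU₁ hb1 hh₁d (hu.1.mono hU₁b) hden
    (fun z hz => hu.den_ne hb1' hb1 z (hU₁b hz)) ?_
  exact ((hc.mono hU₁U).congr_left (fun z hz => (hup z hz).symm)).congr_right
    (fun z hz => (hgu z (hU₁b hz)).symm)

/-! ### Geometry of hyperbolic segments -/

/-- The point at parameter `t` of the hyperbolic segment from `a₁` to `a₂`. -/
noncomputable def seg (a₁ a₂ : ℂ) (t : ℝ) : ℂ := bl (-a₁) (t * bl a₁ a₂)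

theorem seg_zero (a₁ a₂ : ℂ) : seg a₁ a₂ 0 = a₁ := by simp [seg, bl]

theorem seg_one {a₁ a₂ : ℂ} (h1 : ‖a₁‖ < 1) (h2 : ‖a₂‖ < 1) : seg a₁ a₂ 1 = a₂ := by
  simp only [seg, ofReal_one, one_mul]
  exact bl_neg_bl h1 h2.le

theorem norm_mul_bl_lt {a₁ a₂ : ℂ} (h1 : ‖a₁‖ < 1) (h2 : ‖a₂‖ < 1) {t : ℝ} (ht0 : 0 ≤ t)
    (ht1 : t ≤ 1) : ‖(t : ℂ) * bl a₁ a₂‖ < 1 := by
  rw [norm_mul, norm_real, Real.norm_of_nonneg ht0]
  have := norm_bl_lt h1 h2
  nlinarith [norm_nonneg (bl a₁ a₂)]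

theorem bl_seg {a₁ a₂ : ℂ} (h1 : ‖a₁‖ < 1) (h2 : ‖a₂‖ < 1) {t : ℝ} (ht0 : 0 ≤ t)
    (ht1 : t ≤ 1) : bl a₁ (seg a₁ a₂ t) = t * bl a₁ a₂ :=
  bl_bl_neg h1 (norm_mul_bl_lt h1 h2 ht0 ht1).le

theorem norm_seg_lt {a₁ a₂ : ℂ} (h1 : ‖a₁‖ < 1) (h2 : ‖a₂‖ < 1) {t : ℝ} (ht0 : 0 ≤ t)
    (ht1 : t ≤ 1) : ‖seg a₁ a₂ t‖ < 1 :=
  norm_bl_lt (by simpa using h1) (norm_mul_bl_lt h1 h2 ht0 ht1)

theorem norm_seg_le {a₁ a₂ : ℂ} {r : ℝ} (hr : r < 1) (h1 : ‖a₁‖ ≤ r) (h2 : ‖a₂‖ ≤ r) {t : ℝ}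
    (ht0 : 0 ≤ t) (ht1 : t ≤ 1) : ‖seg a₁ a₂ t‖ ≤ r := by
  have h1' : ‖a₁‖ < 1 := h1.trans_lt hr
  have h2' : ‖a₂‖ < 1 := h2.trans_lt hr
  have hr0 : 0 ≤ r := (norm_nonneg _).trans h1
  set w := bl a₁ a₂ with hw
  have hw1 : ‖w‖ < 1 := norm_bl_lt h1' h2'
  have htw : ‖(t : ℂ) * w‖ < 1 := norm_mul_bl_lt h1' h2' ht0 ht1
  have hden : ∀ x : ℂ, ‖x‖ < 1 → 1 + conj a₁ * x ≠ 0 := fun x hx => one_add_ne h1' hx.le
  -- the condition as a quadratic inequality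
  have key : ∀ x : ℂ, ‖x‖ < 1 → (‖bl (-a₁) x‖ ≤ r ↔
      normSq (x + a₁) - r ^ 2 * normSq (1 + conj a₁ * x) ≤ 0) := by
    intro x hx
    have hd := hden x hx
    have hpos : 0 < ‖1 + conj a₁ * x‖ := norm_pos_iff.mpr hd
    have e : bl (-a₁) x = (x + a₁) / (1 + conj a₁ * x) := by simp [bl]
    rw [e, norm_div, div_le_iff₀ hpos, normSq_eq_norm_sq, normSq_eq_norm_sq]
    constructor
    · intro h
      have : ‖x + a₁‖ ^ 2 ≤ (r * ‖1 + conj a₁ * x‖) ^ 2 :=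
        pow_le_pow_left₀ (norm_nonneg _) h 2
      nlinarith
    · intro h
      apply le_of_sq_le_sq _ (by positivity)
      nlinarith
  have hA : normSq (w + a₁) - r ^ 2 * normSq (1 + conj a₁ * w) ≤ 0 := by
    rw [← key w hw1, hw, bl_neg_bl h1' h2'.le]
    exact h2
  rw [seg, key _ htw]
  have h0 : normSq a₁ ≤ r ^ 2 := by
    rw [normSq_eq_norm_sq]; exact pow_le_pow_left₀ (norm_nonneg _) h1 2
  have hn : normSq a₁ ≤ 1 := h0.trans (by nlinarith)
  simp only [normSq_apply, add_re, add_im, one_re, one_im, mul_re, mul_im, conj_re, conj_im,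
    ofReal_re, ofReal_im] at *
  have hc : 0 ≤ 1 - r ^ 2 * (a₁.re * a₁.re + a₁.im * a₁.im) := by nlinarith
  have hww : 0 ≤ w.re * w.re + w.im * w.im :=
    add_nonneg (mul_self_nonneg _) (mul_self_nonneg _)
  have ht2 : 0 ≤ t - t ^ 2 := by nlinarith
  nlinarith [mul_nonneg (mul_nonneg hc hww) ht2, mul_le_mul_of_nonneg_left hA ht0,
    mul_nonneg (sub_nonneg.mpr h0) (sub_nonneg.mpr ht1)]

/-- Real inequality behind the rigidity of the triangle inequality. -/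
theorem real_rigid {t W σ P : ℝ} (ht0 : 0 ≤ t) (ht1 : t < 1) (hW0 : 0 < W) (hW1 : W < 1)
    (_hσ0 : 0 ≤ σ) (hσ : σ ≤ t * W) (hP : P ≤ W * σ)
    (h : (σ ^ 2 - 2 * P + W ^ 2) * (1 - t * W ^ 2) ^ 2 ≤
      (1 - t) ^ 2 * W ^ 2 * (1 - 2 * P + W ^ 2 * σ ^ 2)) :
    σ = t * W ∧ P = t * W ^ 2 := by
  set X := (1 - t) * W * (1 - W * σ) with hX
  set Y := (W - σ) * (1 - t * W ^ 2) with hY
  have hWW : W ^ 2 < 1 := by nlinarith
  have h1 : 0 < 1 - t * W ^ 2 := by nlinarith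
  have h2 : 0 < W - σ := by nlinarith
  have hYpos : 0 < Y := mul_pos h2 h1
  have hXpos : 0 ≤ X := by
    have : 0 ≤ 1 - W * σ := by nlinarith
    have h3 : 0 ≤ 1 - t := by linarith
    positivity
  have hXY : X - Y = (σ - t * W) * (1 - W ^ 2) := by rw [hX, hY]; ring
  -- coefficient of P
  have hcoef : 0 < (1 - t * W ^ 2) ^ 2 - (1 - t) ^ 2 * W ^ 2 := by
    have e : (1 - t * W ^ 2) ^ 2 - (1 - t) ^ 2 * W ^ 2 =
      ((1 - W) * (1 + t * W)) * ((1 - t * W ^ 2) + (1 - t) * W) := by ring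
    rw [e]
    have : 0 < 1 - W := by linarith
    have h3 : 0 < 1 - t := by linarith
    positivity
  have hf : X ^ 2 - Y ^ 2 ≥ 2 * ((1 - t * W ^ 2) ^ 2 - (1 - t) ^ 2 * W ^ 2) * (W * σ - P) := by
    rw [hX, hY]
    nlinarith
  have hf2 : X ^ 2 - Y ^ 2 = (σ - t * W) * ((1 - W ^ 2) * (X + Y)) := by
    have : X ^ 2 - Y ^ 2 = (X - Y) * (X + Y) := by ring
    rw [this, hXY]; ring
  have hpos : 0 < (1 - W ^ 2) * (X + Y) := mul_pos (by linarith) (by linarith)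
  have hs : 0 ≤ W * σ - P := by linarith
  have hr : 0 ≤ 2 * ((1 - t * W ^ 2) ^ 2 - (1 - t) ^ 2 * W ^ 2) * (W * σ - P) := by positivity
  have hσ' : σ = t * W := by
    by_contra hne
    have hlt : σ - t * W < 0 := by
      rcases hσ.lt_or_eq with h | h
      · linarith
      · exact absurd h hne
    have := mul_neg_of_neg_of_pos hlt hpos
    linarith
  refine ⟨hσ', ?_⟩
  have hz : X ^ 2 - Y ^ 2 = 0 := by rw [hf2, hσ']; ring
  rw [hz] at hf
  have hs' : W * σ - P = 0 := by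
    by_contra hne
    have hlt : 0 < W * σ - P := lt_of_le_of_ne hs (Ne.symm hne)
    have := mul_pos (mul_pos two_pos hcoef) hlt
    linarith
  rw [hσ'] at hs'
  linarith

theorem seg_rigid {a₁ a₂ γ c y : ℂ} (h1 : ‖a₁‖ < 1) (h2 : ‖a₂‖ < 1) (hne : a₁ ≠ a₂)
    (hγ : ‖γ‖ < 1) (hc : ‖c‖ = 1) {t : ℝ} (ht0 : 0 ≤ t) (ht1 : t ≤ 1)
    {g₁ g₂ : ℂ → ℂ} (hg₁ : IsSchur g₁) (hg₂ : IsSchur g₂)
    (h1a : g₁ a₁ = γ) (h1z : g₁ (seg a₁ a₂ t) = y) (h2z : g₂ (seg a₁ a₂ t) = y)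
    (h2a : g₂ a₂ = mob γ (bl a₁ a₂ * c)) :
    y = mob γ (bl a₁ (seg a₁ a₂ t) * c) := by
  rcases ht1.lt_or_eq with ht1' | rfl
  swap
  · rw [seg_one h1 h2] at h2z ⊢
    rw [← h2z, h2a]
  set w := bl a₁ a₂ with hw
  have hw1 : ‖w‖ < 1 := norm_bl_lt h1 h2
  have hw0 : w ≠ 0 := bl_ne_zero h1 h2 (Ne.symm hne)
  have htw : ‖(t : ℂ) * w‖ < 1 := norm_mul_bl_lt h1 h2 ht0 ht1
  have hzl : ‖seg a₁ a₂ t‖ < 1 := norm_seg_lt h1 h2 ht0 ht1
  have hγ' : ‖-γ‖ < 1 := by simpa using hγ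
  have hcc : conj c * c = 1 := by
    rw [← normSq_eq_conj_mul_self, normSq_eq_norm_sq, hc]; simp
  set x := conj c * mob (-γ) y with hx
  have hy1 : ‖y‖ ≤ 1 := by rw [← h1z]; exact hg₁.norm_le hzl
  -- first inequality
  obtain ⟨u₁, hu₁, hgu₁⟩ := hg₁.exists_down h1 (by rw [h1a]; exact hγ)
  have e1 : mob (-γ) y = t * w * u₁ (seg a₁ a₂ t) := by
    rw [← h1z, hgu₁ _ (mem_ball_zero_iff.mpr hzl), h1a]
    unfold up
    rw [mob_neg_mob' hγ (hu₁.den_ne h1 hγ _ (mem_ball_zero_iff.mpr hzl)), bl_seg h1 h2 ht0 ht1]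
  have hxn : ‖x‖ ≤ t * ‖w‖ := by
    rw [hx, norm_mul, RCLike.norm_conj, hc, one_mul, e1, norm_mul, norm_mul, norm_real,
      Real.norm_of_nonneg ht0]
    have := hu₁.norm_le hzl
    have h3 : 0 ≤ t * ‖w‖ := by positivity
    nlinarith
  -- second inequality
  set G : ℂ → ℂ := fun ζ => conj c * mob (-γ) (g₂ (bl (-a₁) ζ)) with hG
  have h1' : ‖-a₁‖ < 1 := by simpa using h1
  have hmaps : MapsTo (bl (-a₁)) (ball 0 1) (ball 0 1) := fun ζ hζ =>
    mem_ball_zero_iff.mpr (norm_bl_lt h1' (mem_ball_zero_iff.mp hζ))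
  have hGS : IsSchur G := by
    refine ⟨?_, ?_⟩
    · refine DifferentiableOn.const_mul ?_ _
      refine differentiableOn_mob_comp
        (hg₂.1.comp (differentiableOn_bl h1' subset_rfl) hmaps) ?_
      intro z hz
      exact one_add_ne hγ' (hg₂.2 _ (hmaps hz))
    · intro z hz
      simp only [hG]
      rw [norm_mul, RCLike.norm_conj, hc, one_mul]
      exact norm_mob_le hγ' (hg₂.2 _ (hmaps hz))
  have hGx : G (t * w) = x := by
    simp only [hG, hx]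
    rw [← h2z]; rfl
  have hGw : G w = w := by
    simp only [hG]
    rw [hw, bl_neg_bl h1 h2.le, h2a, mob_neg_mob hγ]
    · rw [← mul_assoc, mul_comm (conj c), mul_assoc, hcc, mul_one]
    · rw [norm_mul, hc, mul_one]; exact hw1.le
  obtain ⟨u₂, hu₂, hgu₂⟩ := hGS.exists_down (a := w) hw1 (by rw [hGw]; exact hw1)
  have e2 : mob (-w) x = bl w (t * w) * u₂ (t * w) := by
    rw [← hGx, hgu₂ _ (mem_ball_zero_iff.mpr htw), hGw]
    unfold up
    rw [mob_neg_mob' hw1 (hu₂.den_ne hw1 hw1 _ (mem_ball_zero_iff.mpr htw))]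
  have hx1 : ‖x‖ ≤ 1 := by
    rw [← hGx]; exact hGS.norm_le htw
  have hdx : 1 - conj w * x ≠ 0 := one_sub_ne hw1 hx1
  have hdt : 1 - conj w * (t * w) ≠ 0 := one_sub_ne hw1 htw.le
  have e3 : ‖x - w‖ * ‖1 - conj w * (t * w)‖ ≤ ‖t * w - w‖ * ‖1 - conj w * x‖ := by
    have h4 : ‖mob (-w) x‖ ≤ ‖bl w (t * w)‖ := by
      rw [e2, norm_mul]
      have := hu₂.norm_le htw
      nlinarith [norm_nonneg (bl w (t * w))]
    have h5 : mob (-w) x = (x - w) / (1 - conj w * x) := by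
      simp [mob, sub_eq_add_neg]
    rw [h5, bl, norm_div, norm_div,
      div_le_div_iff₀ (norm_pos_iff.mpr hdx) (norm_pos_iff.mpr hdt)] at h4
    exact h4
  -- translate to reals
  set P : ℝ := (conj w * x).re with hP
  have f1 : ‖x - w‖ ^ 2 = ‖x‖ ^ 2 - 2 * P + ‖w‖ ^ 2 := by
    rw [← normSq_eq_norm_sq, ← normSq_eq_norm_sq, ← normSq_eq_norm_sq, hP]
    simp only [normSq_apply, sub_re, sub_im, mul_re, conj_re, conj_im]
    ring
  have f2 : ‖1 - conj w * x‖ ^ 2 = 1 - 2 * P + ‖w‖ ^ 2 * ‖x‖ ^ 2 := by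
    rw [← normSq_eq_norm_sq, ← normSq_eq_norm_sq, ← normSq_eq_norm_sq, hP]
    simp only [normSq_apply, sub_re, sub_im, one_re, one_im, mul_re, mul_im, conj_re, conj_im]
    ring
  have hcw : conj w * (t * w) = ((t * ‖w‖ ^ 2 : ℝ) : ℂ) := by
    have : conj w * w = ((‖w‖ ^ 2 : ℝ) : ℂ) := by
      rw [← normSq_eq_conj_mul_self, normSq_eq_norm_sq]
    rw [← mul_assoc, mul_comm (conj w), mul_assoc, this]; push_cast; ring
  have hW0 : 0 < ‖w‖ := norm_pos_iff.mpr hw0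
  have hWW : ‖w‖ ^ 2 < 1 := by nlinarith
  have f3 : ‖1 - conj w * (t * w)‖ = 1 - t * ‖w‖ ^ 2 := by
    rw [hcw, ← ofReal_one, ← ofReal_sub, norm_real, Real.norm_of_nonneg]
    nlinarith
  have f4 : ‖(t:ℂ) * w - w‖ = (1 - t) * ‖w‖ := by
    have : (t:ℂ) * w - w = -(((1 - t : ℝ) : ℂ) * w) := by push_cast; ring
    rw [this, norm_neg, norm_mul, norm_real, Real.norm_of_nonneg (by linarith)]
  rw [f3, f4] at e3
  have e4 : (‖x - w‖ * (1 - t * ‖w‖ ^ 2)) ^ 2 ≤ ((1 - t) * ‖w‖ * ‖1 - conj w * x‖) ^ 2 := by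
    apply pow_le_pow_left₀ _ e3
    apply mul_nonneg (norm_nonneg _)
    nlinarith
  rw [mul_pow, mul_pow, mul_pow, f1, f2] at e4
  have hPle : P ≤ ‖w‖ * ‖x‖ := by
    calc P ≤ ‖conj w * x‖ := re_le_norm _
      _ = ‖w‖ * ‖x‖ := by rw [norm_mul, RCLike.norm_conj]
  obtain ⟨hs, hPe⟩ := real_rigid ht0 ht1' hW0 hw1 (norm_nonneg x) hxn hPle (by linarith)
  -- conclude x = t w
  have hxtw : x = t * w := by
    have : ‖x - t * w‖ ^ 2 = 0 := by
      have f5 : ‖x - t * w‖ ^ 2 = ‖x‖ ^ 2 - 2 * t * P + t ^ 2 * ‖w‖ ^ 2 := by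
        rw [← normSq_eq_norm_sq, ← normSq_eq_norm_sq, ← normSq_eq_norm_sq, hP]
        simp only [normSq_apply, sub_re, sub_im, mul_re, mul_im, conj_re, conj_im, ofReal_re,
          ofReal_im]
        ring
      rw [f5, hs, hPe]; ring
    have h6 : ‖x - t * w‖ = 0 := by
      exact pow_eq_zero_iff (two_ne_zero) |>.mp this
    exact sub_eq_zero.mp (norm_eq_zero.mp h6)
  have hmy : mob (-γ) y = t * w * c := by
    have : c * x = mob (-γ) y := by
      rw [hx, ← mul_assoc, mul_comm c, hcc, one_mul]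
    rw [← this, hxtw]; ring
  rw [bl_seg h1 h2 ht0 ht1, ← hw, ← hmy, mob_mob_neg hγ hy1]

/-- Rigidity: an extremal configuration with two distinct nodes forces `h = g` along the
hyperbolic segment between them. -/
theorem rigid_pair {r : ℝ} (hr : r < 1) (L : List ℂ) : ∀ (U : Set ℂ) (h g : ℂ → ℂ) (a₁ a₂ : ℂ),
    IsOpen U → U ⊆ ball 0 1 → closedBall 0 r ⊆ U → DifferentiableOn ℂ h U →
    Interp r U h (L.length + 2) → IsSchur g →
    Cong U (a₁ ::ₘ a₂ ::ₘ (L : Multiset ℂ)) h g → Term g (L ++ [a₁]) →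
    (∀ b ∈ L, ‖b‖ ≤ r) → ‖a₁‖ ≤ r → ‖a₂‖ ≤ r → a₁ ≠ a₂ →
    ∀ t : ℝ, 0 ≤ t → t ≤ 1 → h (seg a₁ a₂ t) = g (seg a₁ a₂ t) := by
  induction L with
  | nil =>
    intro U h g a₁ a₂ hUo hU hF hd hI hg hc ht _ h1 h2 hne t ht0 ht1
    have h1' : ‖a₁‖ < 1 := h1.trans_lt hr
    have h2' : ‖a₂‖ < 1 := h2.trans_lt hr
    have m1 : a₁ ∈ U := hF (by simpa using h1)
    have m2 : a₂ ∈ U := hF (by simpa using h2)
    have hz := norm_seg_le hr h1 h2 ht0 ht1
    have mz : seg a₁ a₂ t ∈ U := hF (by simpa using hz)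
    have e1 : h a₁ = g a₁ := hc.eval (by simp) m1
    have e2 : h a₂ = g a₂ := hc.eval (by simp) m2
    simp only [List.nil_append] at ht
    cases ht with
    | const _ c _ hcn hgc =>
      rw [hgc _ (hU mz)]
      rw [hgc _ (hU m1)] at e1
      rw [← e1]
      exact Interp.const (n := 0) (by simpa using hI) hU hF h1 (by rw [e1]; exact hcn) hz
    | step _ u _ γ _ ha hγ hu hgu htu =>
      -- u is a unimodular constant
      cases htu with
      | const _ c _ hcn huc =>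
        obtain ⟨g₁, hg₁, hc₁⟩ := hI {a₁, seg a₁ a₂ t} (by simp) (by
          intro a ha
          simp only [Multiset.insert_eq_cons, Multiset.mem_cons, Multiset.mem_singleton] at ha
          rcases ha with rfl | rfl
          · exact h1
          · exact hz)
        obtain ⟨g₂, hg₂, hc₂⟩ := hI {a₂, seg a₁ a₂ t} (by simp) (by
          intro a ha
          simp only [Multiset.insert_eq_cons, Multiset.mem_cons, Multiset.mem_singleton] at ha
          rcases ha with rfl | rfl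
          · exact h2
          · exact hz)
        have p1 : h a₁ = g₁ a₁ := hc₁.eval (by simp) m1
        have p2 : h (seg a₁ a₂ t) = g₁ (seg a₁ a₂ t) := hc₁.eval (by simp) mz
        have p3 : h a₂ = g₂ a₂ := hc₂.eval (by simp) m2
        have p4 : h (seg a₁ a₂ t) = g₂ (seg a₁ a₂ t) := hc₂.eval (by simp) mz
        have q1 : g₁ a₁ = γ := by
          rw [← p1, e1, hgu _ (hU m1), up_self]
        have q2 : g₂ a₂ = mob γ (bl a₁ a₂ * c) := by
          rw [← p3, e2, hgu _ (hU m2)]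
          unfold up
          rw [huc _ (hU m2)]
        have := seg_rigid h1' h2' hne hγ hcn ht0 ht1 hg₁ hg₂ q1 p2.symm p4.symm q2
        rw [this, hgu _ (hU mz)]
        unfold up
        rw [huc _ (hU mz)]
  | cons b L ih =>
    intro U h g a₁ a₂ hUo hU hF hd hI hg hc ht hL h1 h2 hne t ht0 ht1
    have hb : ‖b‖ ≤ r := hL b (by simp)
    have hL' : ∀ x ∈ L, ‖x‖ ≤ r := fun x hx => hL x (by simp [hx])
    have mb : b ∈ U := hF (by simpa using hb)
    have hz := norm_seg_le hr h1 h2 ht0 ht1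
    have mz : seg a₁ a₂ t ∈ U := hF (by simpa using hz)
    have eb : h b = g b := hc.eval (by simp) mb
    rw [List.cons_append] at ht
    cases ht with
    | const _ c _ hcn hgc =>
      rw [hgc _ (hU mz)]
      rw [hgc _ (hU mb)] at eb
      rw [← eb]
      refine Interp.const (n := L.length + 1) ?_ hU hF hb (by rw [eb]; exact hcn) hz
      simpa [List.length_cons, add_assoc, add_comm, add_left_comm] using hI
    | step _ u _ γ _ ha hγ hu hgu htu =>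
      have hbγ : h b = γ := by rw [eb, hgu _ (hU mb), up_self]
      have hI' : Interp r U h ((L.length + 2) + 1) := by
        simpa [List.length_cons, add_assoc, add_comm, add_left_comm] using hI
      obtain ⟨U₁, h₁, hU₁o, hU₁U, hFU₁, hh₁d, hden, hup, hI₁⟩ :=
        hI'.down hUo hU hF hd hb (by rw [hbγ]; exact hγ)
      rw [hbγ] at hden hup
      have hU₁b : U₁ ⊆ ball 0 1 := hU₁U.trans hU
      have mb₁ : b ∈ U₁ := hFU₁ (by simpa using hb)
      have mz₁ : seg a₁ a₂ t ∈ U₁ := hFU₁ (by simpa using hz)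
      have hcong : Cong U₁ (b ::ₘ a₁ ::ₘ a₂ ::ₘ (L : Multiset ℂ)) (up b γ h₁) (up b γ u) := by
        have e : (a₁ ::ₘ a₂ ::ₘ ((b :: L : List ℂ) : Multiset ℂ)) =
            b ::ₘ a₁ ::ₘ a₂ ::ₘ (L : Multiset ℂ) := by
          rw [← Multiset.cons_coe, Multiset.cons_swap a₂ b, Multiset.cons_swap a₁ b]
        rw [e] at hc
        exact ((hc.mono hU₁U).congr_left (fun z hz => (hup z hz).symm)).congr_right
          (fun z hz => (hgu z (hU₁b hz)).symm)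
      have hcong' := Cong.down hU₁o hU₁b mb₁ hγ hh₁d (hu.1.mono hU₁b) hden
        (fun z hz => hu.den_ne ha hγ z (hU₁b hz)) hcong
      have := ih U₁ h₁ u a₁ a₂ hU₁o hU₁b hFU₁ hh₁d hI₁ hu hcong' htu hL' h1 h2 hne t ht0 ht1
      rw [hup _ mz₁, hgu _ (hU mz)]
      unfold up
      rw [this]

/-- Rigidity: an extremal configuration with a node in the interior forces `h = g`. -/
theorem rigid_int {r : ℝ} (_hr : r < 1) (L : List ℂ) : ∀ (U : Set ℂ) (h g : ℂ → ℂ) (a : ℂ),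
    IsOpen U → U ⊆ ball 0 1 → closedBall 0 r ⊆ U → DifferentiableOn ℂ h U →
    Interp r U h (L.length + 1) → IsSchur g →
    Cong U (a ::ₘ (L : Multiset ℂ)) h g → Term g L →
    (∀ b ∈ L, ‖b‖ ≤ r) → ‖a‖ < r →
    ∀ z : ℂ, ‖z‖ < r → h z = g z := by
  induction L with
  | nil =>
    intro U h g a hUo hU hF hd hI hg hc ht _ h1 z hz
    have m1 : a ∈ U := hF (by simpa using h1.le)
    have mz : z ∈ U := hF (by simpa using hz.le)
    have e1 : h a = g a := hc.eval (by simp) m1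
    cases ht with
    | const _ c _ hcn hgc =>
      rw [hgc _ (hU m1)] at e1
      rw [hgc _ (hU mz), ← e1]
      have hd' : DifferentiableOn ℂ h (ball 0 r) := hd.mono (ball_subset_closedBall.trans hF)
      refine Complex.eq_const_of_exists_max hd' (mem_ball_zero_iff.mpr h1) ?_
        (mem_ball_zero_iff.mpr hz)
      intro w hw
      have : ‖h w‖ ≤ 1 := Interp.norm_le (n := 0) (by simpa using hI) hU hF
        (mem_ball_zero_iff.mp hw).le
      simpa [e1, hcn] using this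
  | cons b L ih =>
    intro U h g a hUo hU hF hd hI hg hc ht hL h1 z hz
    have hb : ‖b‖ ≤ r := hL b (by simp)
    have hL' : ∀ x ∈ L, ‖x‖ ≤ r := fun x hx => hL x (by simp [hx])
    have mb : b ∈ U := hF (by simpa using hb)
    have mz : z ∈ U := hF (by simpa using hz.le)
    have eb : h b = g b := hc.eval (by simp) mb
    cases ht with
    | const _ c _ hcn hgc =>
      rw [hgc _ (hU mz)]
      rw [hgc _ (hU mb)] at eb
      rw [← eb]
      refine Interp.const (n := L.length) ?_ hU hF hb (by rw [eb]; exact hcn) hz.le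
      simpa [List.length_cons, add_assoc, add_comm, add_left_comm] using hI
    | step _ u _ γ _ ha hγ hu hgu htu =>
      have hbγ : h b = γ := by rw [eb, hgu _ (hU mb), up_self]
      have hI' : Interp r U h ((L.length + 1) + 1) := by
        simpa [List.length_cons, add_assoc, add_comm, add_left_comm] using hI
      obtain ⟨U₁, h₁, hU₁o, hU₁U, hFU₁, hh₁d, hden, hup, hI₁⟩ :=
        hI'.down hUo hU hF hd hb (by rw [hbγ]; exact hγ)
      rw [hbγ] at hden hup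
      have hU₁b : U₁ ⊆ ball 0 1 := hU₁U.trans hU
      have mb₁ : b ∈ U₁ := hFU₁ (by simpa using hb)
      have mz₁ : z ∈ U₁ := hFU₁ (by simpa using hz.le)
      have hcong : Cong U₁ (b ::ₘ a ::ₘ (L : Multiset ℂ)) (up b γ h₁) (up b γ u) := by
        have e : (a ::ₘ ((b :: L : List ℂ) : Multiset ℂ)) =
            b ::ₘ a ::ₘ (L : Multiset ℂ) := by
          rw [← Multiset.cons_coe, Multiset.cons_swap a b]
        rw [e] at hc
        exact ((hc.mono hU₁U).congr_left (fun z hz => (hup z hz).symm)).congr_right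
          (fun z hz => (hgu z (hU₁b hz)).symm)
      have hcong' := Cong.down hU₁o hU₁b mb₁ hγ hh₁d (hu.1.mono hU₁b) hden
        (fun z hz => hu.den_ne ha hγ z (hU₁b hz)) hcong
      have := ih U₁ h₁ u a hU₁o hU₁b hFU₁ hh₁d hI₁ hu hcong' htu hL' h1 z hz
      rw [hup _ mz₁, hgu _ (hU mz)]
      unfold up
      rw [this]

end Pool.MP_cf143d_an.Ptak
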