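import Pool.Agent.Lib.MP_cf143d_an.Defs
import Pool.Agent.Lib.MP_cf143d_an.Rigid
import Pool.Agent.Lib.MP_cf143d_an.Montel

/-!
# Quotient norms of `H^∞` modulo polynomials
-/

open Complex Metric Set Filter Topology Polynomial
open scoped ComplexConjugate

namespace Pool.MP_cf143d_an.Ptak

theorem supNorm_le {f : ℂ → ℂ} {C : ℝ} (h : ∀ z ∈ ball (0:ℂ) 1, ‖f z‖ ≤ C) : supNorm f ≤ C := by
  have : Nonempty (ball (0:ℂ) 1) := ⟨⟨0, by simp⟩⟩
  exact ciSup_le fun z => h z.1 z.2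

theorem le_supNorm {f : ℂ → ℂ} {C : ℝ} (h : ∀ z ∈ ball (0:ℂ) 1, ‖f z‖ ≤ C) {z : ℂ}
    (hz : z ∈ ball (0:ℂ) 1) : ‖f z‖ ≤ supNorm f := by
  have hb : BddAbove (Set.range fun z : ball (0:ℂ) 1 => ‖f z‖) := by
    refine ⟨C, ?_⟩
    rintro _ ⟨w, rfl⟩
    exact h w.1 w.2
  exact le_ciSup hb ⟨z, hz⟩

theorem supNorm_nonneg (f : ℂ → ℂ) : 0 ≤ supNorm f := Real.iSup_nonneg fun _ => norm_nonneg _

theorem memHinf_zero : MemHinf (fun _ => 0) := ⟨differentiableOn_const _, 0, fun z _ => by simp⟩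

theorem quotNorm_bdd (h : ℂ → ℂ) (p : ℂ[X]) : BddBelow (Set.range
    fun g : {g : ℂ → ℂ // MemHinf g} => supNorm (fun z => h z - p.eval z * g.1 z)) := by
  refine ⟨0, ?_⟩
  rintro _ ⟨g, rfl⟩
  exact supNorm_nonneg _

theorem quotNorm_nonneg (h : ℂ → ℂ) (p : ℂ[X]) : 0 ≤ quotNorm h p := by
  have : Nonempty {g : ℂ → ℂ // MemHinf g} := ⟨⟨_, memHinf_zero⟩⟩
  exact le_ciInf fun g => supNorm_nonneg _

theorem quotNorm_le {h g : ℂ → ℂ} {p : ℂ[X]} {C : ℝ} (hg : MemHinf g)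
    (hC : ∀ z ∈ ball (0:ℂ) 1, ‖h z - p.eval z * g z‖ ≤ C) : quotNorm h p ≤ C :=
  (ciInf_le (quotNorm_bdd h p) ⟨g, hg⟩).trans (supNorm_le hC)

theorem exists_of_quotNorm_lt {h : ℂ → ℂ} (hh : MemHinf h) {p : ℂ[X]} {C : ℝ}
    (hC : quotNorm h p < C) :
    ∃ g, MemHinf g ∧ ∃ C' < C, ∀ z ∈ ball (0:ℂ) 1, ‖h z - p.eval z * g z‖ ≤ C' := by
  have : Nonempty {g : ℂ → ℂ // MemHinf g} := ⟨⟨_, memHinf_zero⟩⟩
  obtain ⟨⟨g, hg⟩, hlt⟩ := exists_lt_of_ciInf_lt hC
  refine ⟨g, hg, _, hlt, fun z hz => ?_⟩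
  obtain ⟨Ch, hCh⟩ := hh.2
  obtain ⟨Cg, hCg⟩ := hg.2
  -- bound for the polynomial on the closed disk
  obtain ⟨Cp, hCp⟩ := (isCompact_closedBall (0:ℂ) 1).exists_bound_of_continuousOn
    (p.continuous.continuousOn (s := closedBall (0:ℂ) 1))
  refine le_supNorm (f := fun z => h z - p.eval z * g z) (C := Ch + Cp * Cg) (fun w hw => ?_) hz
  have hw' : w ∈ closedBall (0:ℂ) 1 := ball_subset_closedBall hw
  calc ‖h w - p.eval w * g w‖ ≤ ‖h w‖ + ‖p.eval w * g w‖ := norm_sub_le _ _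
    _ = ‖h w‖ + ‖p.eval w‖ * ‖g w‖ := by rw [norm_mul]
    _ ≤ Ch + Cp * Cg := by
      have := hCp w hw'
      have h0 : 0 ≤ Cp := (norm_nonneg _).trans this
      exact add_le_add (hCh w hw) (mul_le_mul this (hCg w hw) (norm_nonneg _) h0)

/-- The monic polynomial with root multiset `A`. -/
noncomputable def nodePoly (A : Multiset ℂ) : ℂ[X] := (A.map fun a => X - C a).prod

theorem eval_nodePoly (A : Multiset ℂ) (z : ℂ) : (nodePoly A).eval z = nodeProd A z := by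
  unfold nodePoly nodeProd
  rw [eval_multiset_prod, Multiset.map_map]
  simp

/-- Dividing a bounded function by a finite product with zeros in the disk. -/
theorem exists_div_bound (A : Multiset ℂ) (hA : ∀ a ∈ A, ‖a‖ < 1) :
    ∃ K : ℝ, 0 ≤ K ∧ ∀ (k : ℂ → ℂ) (B : ℝ), DifferentiableOn ℂ k (ball 0 1) →
      (∀ z ∈ ball (0:ℂ) 1, ‖nodeProd A z * k z‖ ≤ B) →
      ∀ z ∈ ball (0:ℂ) 1, ‖k z‖ ≤ K * B := by
  induction A using Multiset.induction_on with
  | empty =>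
    refine ⟨1, zero_le_one, fun k B _ h z hz => ?_⟩
    have := h z hz
    rwa [nodeProd_zero, one_mul, ← one_mul B] at this
  | cons a A ih =>
    obtain ⟨K, hK0, hK⟩ := ih (fun x hx => hA x (by simp [hx]))
    have ha : ‖a‖ < 1 := hA a (by simp)
    have hpos : 0 < 1 - ‖a‖ := by linarith
    refine ⟨K * (1 / (1 - ‖a‖)), by positivity, fun k B hk h z hz => ?_⟩
    have hB0 : 0 ≤ B := (norm_nonneg _).trans (h z hz)
    set k' : ℂ → ℂ := fun z => nodeProd A z * k z with hk'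
    have hk'd : DifferentiableOn ℂ k' (ball 0 1) :=
      (differentiable_nodeProd A).differentiableOn.mul hk
    set G : ℂ → ℂ := fun z => (z - a) * k' z with hG
    have hGd : DifferentiableOn ℂ G (ball 0 1) :=
      (differentiableOn_id.sub_const a).mul hk'd
    have hGB : ∀ z ∈ ball (0:ℂ) 1, ‖G z‖ ≤ B := by
      intro w hw
      have := h w hw
      rwa [nodeProd_cons, mul_assoc] at this
    obtain ⟨u, hu, huB, huG⟩ := schwarz_factor hGd hGB ha (by simp [hG])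
    have ham : a ∈ ball (0:ℂ) 1 := mem_ball_zero_iff.mpr ha
    have hlow : ∀ w : ℂ, ‖w‖ < 1 → 1 - ‖a‖ ≤ ‖1 - conj a * w‖ := by
      intro w hw
      have h1 : ‖(1:ℂ)‖ - ‖conj a * w‖ ≤ ‖1 - conj a * w‖ := norm_sub_norm_le _ _
      rw [norm_mul, RCLike.norm_conj, norm_one] at h1
      nlinarith [norm_nonneg a, norm_nonneg w]
    have h1 : ∀ w ∈ ball (0:ℂ) 1, w ≠ a → ‖k' w‖ ≤ B * (1 / (1 - ‖a‖)) := by
      intro w hw hwa
      have hw' := mem_ball_zero_iff.mp hw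
      have e1 := huG w hw
      have hden := one_sub_ne ha hw'.le
      have hwa' : w - a ≠ 0 := sub_ne_zero.mpr hwa
      have e2 : k' w = u w / (1 - conj a * w) := by
        simp only [hG, bl] at e1
        rw [eq_div_iff hden]
        have : (w - a) * (k' w * (1 - conj a * w)) = (w - a) * u w := by
          calc (w - a) * (k' w * (1 - conj a * w)) = ((w - a) * k' w) * (1 - conj a * w) := by ring
            _ = ((w - a) / (1 - conj a * w) * u w) * (1 - conj a * w) := by rw [e1]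
            _ = (w - a) * u w := by
                rw [div_mul_eq_mul_div, div_mul_cancel₀ _ hden]
        exact mul_left_cancel₀ hwa' this
      rw [e2, norm_div, div_le_iff₀ (norm_pos_iff.mpr hden)]
      have h3 := huB w hw
      have h4 := hlow w hw'
      calc ‖u w‖ ≤ B := h3
        _ = B * (1 / (1 - ‖a‖)) * (1 - ‖a‖) := by field_simp
        _ ≤ B * (1 / (1 - ‖a‖)) * ‖1 - conj a * w‖ :=
          mul_le_mul_of_nonneg_left h4 (by positivity)
    have h2 : ∀ w ∈ ball (0:ℂ) 1, ‖k' w‖ ≤ B * (1 / (1 - ‖a‖)) := by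
      intro w hw
      by_cases hwa : w = a
      · subst hwa
        have c1 : ContinuousAt k' w :=
          (hk'd.differentiableAt (isOpen_ball.mem_nhds hw)).continuousAt
        have c2 : Tendsto (fun x => ‖k' x‖) (𝓝[≠] w) (𝓝 ‖k' w‖) :=
          (c1.tendsto.mono_left nhdsWithin_le_nhds).norm
        refine le_of_tendsto c2 ?_
        have : ball (0:ℂ) 1 ∈ 𝓝[≠] w := mem_nhdsWithin_of_mem_nhds (isOpen_ball.mem_nhds hw)
        filter_upwards [this, self_mem_nhdsWithin] with x hx hx'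
        exact h1 x hx hx'
      · exact h1 w hw hwa
    have h3 := hK k (B * (1 / (1 - ‖a‖))) hk h2 z hz
    calc ‖k z‖ ≤ K * (B * (1 / (1 - ‖a‖))) := h3
      _ = K * (1 / (1 - ‖a‖)) * B := by ring

/-- An interpolant of norm `≤ M` bounds the quotient norm. -/
theorem quotNorm_le_of_cong {h g : ℂ → ℂ} (hh : MemHinf h) {A : Multiset ℂ}
    (hA : ∀ a ∈ A, ‖a‖ < 1) {M : ℝ} (hg : ∀ z ∈ ball (0:ℂ) 1, ‖g z‖ ≤ M)
    (hc : Cong (ball 0 1) A h g) : quotNorm h (nodePoly A) ≤ M := by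
  obtain ⟨k, hk, hkz⟩ := hc
  obtain ⟨Ch, hCh⟩ := hh.2
  obtain ⟨K, _, hK⟩ := exists_div_bound A hA
  have hkb : MemHinf k := by
    refine ⟨hk, K * (Ch + M), hK k (Ch + M) hk fun z hz => ?_⟩
    rw [← hkz z hz]
    exact (norm_sub_le _ _).trans (add_le_add (hCh z hz) (hg z hz))
  refine quotNorm_le hkb fun z hz => ?_
  rw [eval_nodePoly, ← hkz z hz]
  simpa using hg z hz

/-- The extremal problem is solvable: if the quotient norm is at most `1`, an interpolant in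
the Schur class exists. -/
theorem exists_schur_of_quotNorm_le {h : ℂ → ℂ} (hh : MemHinf h) {A : Multiset ℂ}
    (hA : ∀ a ∈ A, ‖a‖ < 1) (hq : quotNorm h (nodePoly A) ≤ 1) :
    ∃ g, IsSchur g ∧ Cong (ball 0 1) A h g := by
  obtain ⟨Ch, hCh⟩ := hh.2
  obtain ⟨K, hK0, hK⟩ := exists_div_bound A hA
  have hex : ∀ m : ℕ, ∃ k, MemHinf k ∧
      ∀ z ∈ ball (0:ℂ) 1, ‖h z - nodeProd A z * k z‖ ≤ 1 + 1 / ((m:ℝ) + 1) := by
    intro m
    have hpos : (0:ℝ) < 1 / ((m:ℝ) + 1) := by positivity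
    obtain ⟨k, hk, C', hC', hb⟩ := exists_of_quotNorm_lt hh
      (show quotNorm h (nodePoly A) < 1 + 1 / ((m:ℝ) + 1) by linarith)
    refine ⟨k, hk, fun z hz => ?_⟩
    have := hb z hz
    rw [eval_nodePoly] at this
    exact this.trans hC'.le
  choose k hk hkb using hex
  have hbound : ∀ m, ∀ z ∈ ball (0:ℂ) 1, ‖k m z‖ ≤ K * (Ch + 2) := by
    intro m
    refine hK (k m) (Ch + 2) (hk m).1 fun z hz => ?_
    have h1 := hkb m z hz
    have h2 : 1 / ((m:ℝ) + 1) ≤ 1 := by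
      rw [div_le_one (by positivity)]
      have : (0:ℝ) ≤ m := Nat.cast_nonneg m
      linarith
    calc ‖nodeProd A z * k m z‖ = ‖h z - (h z - nodeProd A z * k m z)‖ := by congr 1; ring
      _ ≤ ‖h z‖ + ‖h z - nodeProd A z * k m z‖ := norm_sub_le _ _
      _ ≤ Ch + 2 := by linarith [hCh z hz]
  obtain ⟨F, hF, hlim⟩ := montel_lite (fun m => (hk m).1) hbound
  refine ⟨fun z => h z - nodeProd A z * F z, ⟨?_, fun z hz => ?_⟩, F, hF, fun z hz => by ring⟩
  · exact hh.1.sub ((differentiable_nodeProd A).differentiableOn.mul hF)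
  · have h1 : Tendsto (fun m => ‖h z - nodeProd A z * k m z‖)
        (Filter.hyperfilter ℕ : Filter ℕ) (𝓝 ‖h z - nodeProd A z * F z‖) :=
      (tendsto_const_nhds.sub ((hlim z hz).const_mul _)).norm
    have h2 : Tendsto (fun m : ℕ => 1 + 1 / ((m:ℝ) + 1)) (Filter.hyperfilter ℕ : Filter ℕ)
        (𝓝 (1 + 0)) :=
      (tendsto_const_nhds.add tendsto_one_div_add_atTop_nhds_zero_nat).mono_left
        Nat.hyperfilter_le_atTop
    have h3 := le_of_tendsto_of_tendsto' h1 h2 (fun m => hkb m z hz)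
    simpa using h3

theorem strict_iff {h : ℂ → ℂ} (hh : MemHinf h) {A : Multiset ℂ}
    (hA : ∀ a ∈ A, ‖a‖ < 1) : Strict A h ↔ quotNorm h (nodePoly A) < 1 := by
  constructor
  · rintro ⟨g', ρ, hd, hρ0, hρ1, hb, hc⟩
    exact (quotNorm_le_of_cong hh hA hb hc).trans_lt hρ1
  · intro hlt
    obtain ⟨k, hk, C', hC', hb⟩ := exists_of_quotNorm_lt hh hlt
    refine ⟨fun z => h z - nodeProd A z * k z, C', ?_, ?_, hC', ?_, k, hk.1, fun z _ => by ring⟩
    · exact hh.1.sub ((differentiable_nodeProd A).differentiableOn.mul hk.1)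
    · exact (norm_nonneg _).trans (hb 0 (by simp))
    · intro z hz
      have := hb z hz
      rwa [eval_nodePoly] at this

theorem Strict.congr {A : Multiset ℂ} {f g : ℂ → ℂ} (H : Strict A f)
    (hc : Cong (ball 0 1) A g f) : Strict A g := by
  obtain ⟨g', ρ, hd, hρ0, hρ1, hb, hc'⟩ := H
  exact ⟨g', ρ, hd, hρ0, hρ1, hb, hc.trans hc'⟩

/-! ### Scaling -/

theorem MemHinf.const_mul {h : ℂ → ℂ} (hh : MemHinf h) (c : ℂ) : MemHinf (fun z => c * h z) := by
  obtain ⟨C, hC⟩ := hh.2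
  refine ⟨hh.1.const_mul c, ‖c‖ * C, fun z hz => ?_⟩
  rw [norm_mul]
  exact mul_le_mul_of_nonneg_left (hC z hz) (norm_nonneg _)

theorem quotNorm_const_mul_le {h : ℂ → ℂ} (hh : MemHinf h) (p : ℂ[X]) (c : ℂ) :
    quotNorm (fun z => c * h z) p ≤ ‖c‖ * quotNorm h p := by
  apply le_of_forall_pos_lt_add
  intro ε hε
  have hε' : 0 < ε / (‖c‖ + 1) := by positivity
  obtain ⟨g, hg, C', hC', hb⟩ := exists_of_quotNorm_lt hh
    (show quotNorm h p < quotNorm h p + ε / (‖c‖ + 1) by linarith)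
  have h1 : quotNorm (fun z => c * h z) p ≤ ‖c‖ * C' := by
    refine quotNorm_le (hg.const_mul c) fun z hz => ?_
    have : c * h z - p.eval z * (c * g z) = c * (h z - p.eval z * g z) := by ring
    rw [this, norm_mul]
    exact mul_le_mul_of_nonneg_left (hb z hz) (norm_nonneg _)
  have h2 : ‖c‖ * C' ≤ ‖c‖ * (quotNorm h p + ε / (‖c‖ + 1)) :=
    mul_le_mul_of_nonneg_left hC'.le (norm_nonneg _)
  have h3 : ‖c‖ * (ε / (‖c‖ + 1)) < ε := by
    rw [mul_div_assoc', div_lt_iff₀ (by positivity)]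
    nlinarith [norm_nonneg c]
  linarith

theorem quotNorm_const_mul {h : ℂ → ℂ} (hh : MemHinf h) (p : ℂ[X]) {c : ℂ} (hc : c ≠ 0) :
    quotNorm (fun z => c * h z) p = ‖c‖ * quotNorm h p := by
  apply le_antisymm (quotNorm_const_mul_le hh p c)
  have h1 := quotNorm_const_mul_le (hh.const_mul c) p c⁻¹
  have h2 : (fun z => c⁻¹ * (c * h z)) = h := by
    funext z; rw [← mul_assoc, inv_mul_cancel₀ hc, one_mul]
  rw [h2, norm_inv] at h1
  have hpos : 0 < ‖c‖ := norm_pos_iff.mpr hc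
  calc ‖c‖ * quotNorm h p ≤ ‖c‖ * (‖c‖⁻¹ * quotNorm (fun z => c * h z) p) :=
        mul_le_mul_of_nonneg_left h1 hpos.le
    _ = quotNorm (fun z => c * h z) p := by
        rw [← mul_assoc, mul_inv_cancel₀ hpos.ne', one_mul]

/-! ### Reduction to monic polynomials -/

theorem quotNorm_C_mul {h : ℂ → ℂ} (p : ℂ[X]) {c : ℂ} (hc : c ≠ 0) :
    quotNorm h (C c * p) = quotNorm h p := by
  have key : ∀ (d : ℂ) (q : ℂ[X]), d ≠ 0 → quotNorm h q ≤ quotNorm h (C d * q) := by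
    intro d q _
    have : Nonempty {g : ℂ → ℂ // MemHinf g} := ⟨⟨_, memHinf_zero⟩⟩
    refine le_ciInf fun g => ?_
    refine (ciInf_le (quotNorm_bdd h q) ⟨_, g.2.const_mul d⟩).trans (le_of_eq ?_)
    congr 1
    funext z
    simp only [eval_mul, eval_C]
    ring
  apply le_antisymm _ (key c p hc)
  have h1 := key c⁻¹ (C c * p) (inv_ne_zero hc)
  rwa [← mul_assoc, ← C_mul, inv_mul_cancel₀ hc, C_1, one_mul] at h1

theorem eq_C_mul_nodePoly {p : ℂ[X]} : p = C p.leadingCoeff * nodePoly p.roots := by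
  have := (IsAlgClosed.splits p).eq_prod_roots
  simpa [nodePoly] using this

theorem quotNorm_eq_nodePoly {h : ℂ → ℂ} {p : ℂ[X]} (hp : p ≠ 0) :
    quotNorm h p = quotNorm h (nodePoly p.roots) := by
  conv_lhs => rw [eq_C_mul_nodePoly (p := p)]
  exact quotNorm_C_mul _ (leadingCoeff_ne_zero.mpr hp)

end Pool.MP_cf143d_an.Ptak
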