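import Pool.Agent.Lib.MP_cf143d_an.Mobius

/-!
# The Schur class, Schur steps and congruences modulo finite products
-/

open Complex Metric Set Filter Topology
open scoped ComplexConjugate

namespace Pool.MP_cf143d_an.Ptak

/-- The Schur class of the open unit disk. -/
def IsSchur (g : ℂ → ℂ) : Prop :=
  DifferentiableOn ℂ g (ball 0 1) ∧ ∀ z ∈ ball (0:ℂ) 1, ‖g z‖ ≤ 1

/-- The inverse Schur step at the node `a` with value `γ`. -/
noncomputable def up (a γ : ℂ) (u : ℂ → ℂ) (z : ℂ) : ℂ := mob γ (bl a z * u z)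

/-- `∏_{a ∈ A} (z - a)`. -/
noncomputable def nodeProd (A : Multiset ℂ) (z : ℂ) : ℂ := (A.map fun a => z - a).prod

/-- `f ≡ g` modulo `∏_{a ∈ A} (z - a)`, on the open set `U`. -/
def Cong (U : Set ℂ) (A : Multiset ℂ) (f g : ℂ → ℂ) : Prop :=
  ∃ k : ℂ → ℂ, DifferentiableOn ℂ k U ∧ ∀ z ∈ U, f z - g z = nodeProd A z * k z

theorem nodeProd_cons (a : ℂ) (A : Multiset ℂ) (z : ℂ) :
    nodeProd (a ::ₘ A) z = (z - a) * nodeProd A z := by
  simp [nodeProd]

theorem nodeProd_zero (z : ℂ) : nodeProd 0 z = 1 := by simp [nodeProd]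

theorem nodeProd_add (A B : Multiset ℂ) (z : ℂ) :
    nodeProd (A + B) z = nodeProd A z * nodeProd B z := by
  simp [nodeProd]

theorem differentiable_nodeProd (A : Multiset ℂ) : Differentiable ℂ (nodeProd A) := by
  induction A using Multiset.induction_on with
  | empty =>
    have : nodeProd 0 = fun _ => 1 := by funext z; exact nodeProd_zero z
    rw [this]; exact differentiable_const _
  | cons a A ih =>
    have : nodeProd (a ::ₘ A) = fun z => (z - a) * nodeProd A z := by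
      funext z; exact nodeProd_cons a A z
    rw [this]
    exact (differentiable_id.sub_const a).mul ih

namespace Cong

variable {U V : Set ℂ} {A B : Multiset ℂ} {f g h : ℂ → ℂ}

theorem refl (U : Set ℂ) (A : Multiset ℂ) (f : ℂ → ℂ) : Cong U A f f :=
  ⟨fun _ => 0, differentiableOn_const _, fun z _ => by simp⟩

theorem symm (H : Cong U A f g) : Cong U A g f := by
  obtain ⟨k, hk, h⟩ := H
  refine ⟨fun z => - k z, hk.neg, fun z hz => ?_⟩
  have := h z hz
  linear_combination -this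

theorem trans (H : Cong U A f g) (H' : Cong U A g h) : Cong U A f h := by
  obtain ⟨k, hk, h1⟩ := H
  obtain ⟨k', hk', h2⟩ := H'
  refine ⟨fun z => k z + k' z, hk.add hk', fun z hz => ?_⟩
  linear_combination h1 z hz + h2 z hz

theorem mono (H : Cong U A f g) (hV : V ⊆ U) : Cong V A f g := by
  obtain ⟨k, hk, h1⟩ := H
  exact ⟨k, hk.mono hV, fun z hz => h1 z (hV hz)⟩

theorem congr_left (H : Cong U A f g) (hf : ∀ z ∈ U, h z = f z) : Cong U A h g := by
  obtain ⟨k, hk, h1⟩ := H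
  exact ⟨k, hk, fun z hz => by rw [hf z hz]; exact h1 z hz⟩

theorem congr_right (H : Cong U A f g) (hf : ∀ z ∈ U, h z = g z) : Cong U A f h := by
  obtain ⟨k, hk, h1⟩ := H
  exact ⟨k, hk, fun z hz => by rw [hf z hz]; exact h1 z hz⟩

theorem of_eqOn (hf : ∀ z ∈ U, f z = g z) : Cong U A f g :=
  (refl U A g).congr_left hf

theorem of_le (H : Cong U B f g) (hAB : A ≤ B) : Cong U A f g := by
  obtain ⟨k, hk, h1⟩ := H
  obtain ⟨C, rfl⟩ := Multiset.le_iff_exists_add.mp hAB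
  refine ⟨fun z => nodeProd C z * k z,
    (differentiable_nodeProd C).differentiableOn.mul hk, fun z hz => ?_⟩
  rw [h1 z hz, nodeProd_add]; ring

theorem eval (H : Cong U A f g) {a : ℂ} (ha : a ∈ A) (haU : a ∈ U) : f a = g a := by
  obtain ⟨k, _, h1⟩ := H
  have h2 := h1 a haU
  obtain ⟨C, rfl⟩ := Multiset.exists_cons_of_mem ha
  rw [nodeProd_cons] at h2
  simp only [sub_self, zero_mul] at h2
  exact sub_eq_zero.mp h2

/-- Two functions agreeing at `a` are congruent modulo `z - a`. -/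
theorem of_eval (hU : IsOpen U) (hf : DifferentiableOn ℂ f U) (hg : DifferentiableOn ℂ g U)
    {a : ℂ} (haU : a ∈ U) (h : f a = g a) : Cong U {a} f g := by
  refine ⟨dslope (fun z => f z - g z) a, ?_, fun z hz => ?_⟩
  · exact (Complex.differentiableOn_dslope (hU.mem_nhds haU)).mpr (hf.sub hg)
  · have := sub_smul_dslope (fun z => f z - g z) a z
    simp only [smul_eq_mul] at this
    rw [show nodeProd {a} z = z - a by simp [nodeProd], this, h]
    ring

end Cong

theorem mob_sub_mob {γ x y : ℂ} (hx : 1 + conj γ * x ≠ 0) (hy : 1 + conj γ * y ≠ 0) :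
    mob γ x - mob γ y =
      (1 - conj γ * γ) * (x - y) / ((1 + conj γ * x) * (1 + conj γ * y)) := by
  unfold mob
  generalize conj γ = g at *
  rw [div_sub_div _ _ hx hy]
  congr 1
  ring

theorem up_sub_up {a γ : ℂ} {u v : ℂ → ℂ} {z : ℂ}
    (hu : 1 + conj γ * (bl a z * u z) ≠ 0) (hv : 1 + conj γ * (bl a z * v z) ≠ 0) :
    up a γ u z - up a γ v z =
      (1 - conj γ * γ) * (bl a z * (u z - v z)) /
        ((1 + conj γ * (bl a z * u z)) * (1 + conj γ * (bl a z * v z))) := by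
  unfold up
  rw [mob_sub_mob hu hv, mul_sub (bl a z)]

theorem Cong.up {U : Set ℂ} (hU : U ⊆ ball 0 1) {A : Multiset ℂ} {a γ : ℂ} {u v : ℂ → ℂ}
    (ha : ‖a‖ < 1) (hu : DifferentiableOn ℂ u U) (hv : DifferentiableOn ℂ v U)
    (hu0 : ∀ z ∈ U, 1 + conj γ * (bl a z * u z) ≠ 0)
    (hv0 : ∀ z ∈ U, 1 + conj γ * (bl a z * v z) ≠ 0) (H : Cong U A u v) :
    Cong U (a ::ₘ A) (up a γ u) (up a γ v) := by
  obtain ⟨k, hk, h1⟩ := H
  have hb := differentiableOn_bl ha hU
  refine ⟨fun z => (1 - conj γ * γ) * k z /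
    ((1 - conj a * z) * ((1 + conj γ * (bl a z * u z)) * (1 + conj γ * (bl a z * v z)))),
    ?_, fun z hz => ?_⟩
  · refine (hk.const_mul _).div ?_ ?_
    · refine ((differentiableOn_id.const_mul _).const_sub _).mul ?_
      exact (((hb.mul hu).const_mul _).const_add _).mul (((hb.mul hv).const_mul _).const_add _)
    · intro z hz
      refine mul_ne_zero (one_sub_ne ha (mem_ball_zero_iff.mp (hU hz)).le) ?_
      exact mul_ne_zero (hu0 z hz) (hv0 z hz)
  · have h3 := one_sub_ne ha (mem_ball_zero_iff.mp (hU hz)).le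
    rw [up_sub_up (hu0 z hz) (hv0 z hz), h1 z hz, nodeProd_cons]
    have e1 := hu0 z hz
    have e2 := hv0 z hz
    rw [show bl a z * (nodeProd A z * k z) = (z - a) * (nodeProd A z * k z) / (1 - conj a * z) by
      unfold bl; ring]
    beta_reduce
    generalize 1 + conj γ * (bl a z * u z) = D1 at *
    generalize 1 + conj γ * (bl a z * v z) = D2 at *
    generalize 1 - conj a * z = D3 at *
    field_simp

theorem Cong.down {U : Set ℂ} (hUo : IsOpen U) (hU : U ⊆ ball 0 1) {A : Multiset ℂ} {a γ : ℂ}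
    {u v : ℂ → ℂ}
    (ha : a ∈ U) (hγ : ‖γ‖ < 1) (hu : DifferentiableOn ℂ u U) (hv : DifferentiableOn ℂ v U)
    (hu0 : ∀ z ∈ U, 1 + conj γ * (bl a z * u z) ≠ 0)
    (hv0 : ∀ z ∈ U, 1 + conj γ * (bl a z * v z) ≠ 0)
    (H : Cong U (a ::ₘ A) (Ptak.up a γ u) (Ptak.up a γ v)) :
    Cong U A u v := by
  have ha1 : ‖a‖ < 1 := mem_ball_zero_iff.mp (hU ha)
  obtain ⟨k, hk, h1⟩ := H
  have hb := differentiableOn_bl ha1 hU
  set K : ℂ → ℂ := fun z => k z * ((1 - conj a * z) *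
    ((1 + conj γ * (bl a z * u z)) * (1 + conj γ * (bl a z * v z)))) / (1 - conj γ * γ) with hK
  have hKd : DifferentiableOn ℂ K U := by
    refine DifferentiableOn.div_const (hk.mul ?_) _
    refine ((differentiableOn_id.const_mul _).const_sub _).mul ?_
    exact (((hb.mul hu).const_mul _).const_add _).mul (((hb.mul hv).const_mul _).const_add _)
  have h4 : (1:ℂ) - conj γ * γ ≠ 0 := one_sub_ne (a := γ) (z := γ) hγ hγ.le
  have key : ∀ z ∈ U, z ≠ a → u z - v z = nodeProd A z * K z := by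
    intro z hz hza
    have h3 := one_sub_ne ha1 (mem_ball_zero_iff.mp (hU hz)).le
    have h5 := h1 z hz
    rw [up_sub_up (hu0 z hz) (hv0 z hz), nodeProd_cons] at h5
    have e1 := hu0 z hz
    have e2 := hv0 z hz
    have hza' : z - a ≠ 0 := sub_ne_zero.mpr hza
    have h6 : bl a z * (u z - v z) = (z - a) * (u z - v z) / (1 - conj a * z) := by
      unfold bl; ring
    rw [h6] at h5
    simp only [hK]
    generalize 1 + conj γ * (bl a z * u z) = D1 at *
    generalize 1 + conj γ * (bl a z * v z) = D2 at *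
    generalize 1 - conj a * z = D3 at *
    generalize 1 - conj γ * γ = D4 at *
    field_simp at h5 ⊢
    linear_combination h5
  refine ⟨K, hKd, fun z hz => ?_⟩
  by_cases hza : z = a
  · subst hza
    -- continuity
    have c1 : ContinuousAt (fun w => u w - v w) z :=
      ((hu.sub hv).differentiableAt (hUo.mem_nhds hz)).continuousAt
    have c2 : ContinuousAt (fun w => nodeProd A w * K w) z :=
      ((differentiable_nodeProd A).continuous.continuousAt).mul
        ((hKd.differentiableAt (hUo.mem_nhds hz)).continuousAt)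
    have c1' : Tendsto (fun w => u w - v w) (𝓝[≠] z) (𝓝 (u z - v z)) :=
      c1.tendsto.mono_left nhdsWithin_le_nhds
    have c2' : Tendsto (fun w => nodeProd A w * K w) (𝓝[≠] z) (𝓝 (nodeProd A z * K z)) :=
      c2.tendsto.mono_left nhdsWithin_le_nhds
    refine tendsto_nhds_unique c1' (c2'.congr' ?_)
    have : U ∈ 𝓝[≠] z := mem_nhdsWithin_of_mem_nhds (hUo.mem_nhds hz)
    filter_upwards [this, self_mem_nhdsWithin] with w hw hw'
    exact (key w hw hw').symm
  · exact key z hz hza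

namespace IsSchur

theorem norm_le {g : ℂ → ℂ} (hg : IsSchur g) {z : ℂ} (hz : ‖z‖ < 1) : ‖g z‖ ≤ 1 :=
  hg.2 z (mem_ball_zero_iff.mpr hz)

theorem const_of_norm_eq {g : ℂ → ℂ} (hg : IsSchur g) {a : ℂ} (ha : ‖a‖ < 1) (h : ‖g a‖ = 1) :
    ∀ z, ‖z‖ < 1 → g z = g a := by
  intro z hz
  have := Complex.eq_const_of_exists_max hg.1 (mem_ball_zero_iff.mpr ha)
    (fun w hw => by simpa [h] using hg.2 w hw)
  exact this (mem_ball_zero_iff.mpr hz)

theorem den_ne {u : ℂ → ℂ} (hu : IsSchur u) {a γ : ℂ} (ha : ‖a‖ < 1) (hγ : ‖γ‖ < 1) :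
    ∀ z ∈ ball (0:ℂ) 1, 1 + conj γ * (bl a z * u z) ≠ 0 := by
  intro z hz
  apply one_add_ne hγ
  rw [norm_mul]
  exact mul_le_one₀ (norm_bl_lt ha (mem_ball_zero_iff.mp hz)).le (norm_nonneg _) (hu.2 z hz)

theorem up {u : ℂ → ℂ} (hu : IsSchur u) {a γ : ℂ} (ha : ‖a‖ < 1) (hγ : ‖γ‖ < 1) :
    IsSchur (up a γ u) := by
  refine ⟨?_, ?_⟩
  · unfold Ptak.up
    exact differentiableOn_mob_comp ((differentiableOn_bl ha subset_rfl).mul hu.1)
      (hu.den_ne ha hγ)
  · intro z hz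
    unfold Ptak.up
    apply norm_mob_le hγ
    rw [norm_mul]
    exact mul_le_one₀ (norm_bl_lt ha (mem_ball_zero_iff.mp hz)).le (norm_nonneg _) (hu.2 z hz)

end IsSchur

theorem up_self (a γ : ℂ) (u : ℂ → ℂ) : up a γ u a = γ := by
  simp [up, bl_self, mob_zero]

/-- Schwarz lemma with a zero at `a`. -/
theorem schwarz_factor {G : ℂ → ℂ} {R : ℝ} (hG : DifferentiableOn ℂ G (ball 0 1))
    (hR : ∀ z ∈ ball (0:ℂ) 1, ‖G z‖ ≤ R) {a : ℂ} (ha : ‖a‖ < 1) (h0 : G a = 0) :
    ∃ u : ℂ → ℂ, DifferentiableOn ℂ u (ball 0 1) ∧ (∀ z ∈ ball (0:ℂ) 1, ‖u z‖ ≤ R) ∧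
      ∀ z ∈ ball (0:ℂ) 1, G z = bl a z * u z := by
  set H : ℂ → ℂ := fun ζ => G (bl (-a) ζ) with hH
  have ha' : ‖-a‖ < 1 := by simpa using ha
  have hmaps : MapsTo (bl (-a)) (ball 0 1) (ball 0 1) := by
    intro ζ hζ
    exact mem_ball_zero_iff.mpr (norm_bl_lt ha' (mem_ball_zero_iff.mp hζ))
  have hmaps' : MapsTo (bl a) (ball 0 1) (ball 0 1) := by
    intro ζ hζ
    exact mem_ball_zero_iff.mpr (norm_bl_lt ha (mem_ball_zero_iff.mp hζ))
  have hHd : DifferentiableOn ℂ H (ball 0 1) := hG.comp (differentiableOn_bl ha' subset_rfl) hmaps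
  have hH0 : H 0 = 0 := by simp [hH, bl, h0]
  have hHR : MapsTo H (ball 0 1) (closedBall (H 0) R) := by
    intro ζ hζ
    rw [hH0, mem_closedBall_zero_iff]
    exact hR _ (hmaps hζ)
  refine ⟨fun z => dslope H 0 (bl a z), ?_, ?_, ?_⟩
  · have : DifferentiableOn ℂ (dslope H 0) (ball 0 1) :=
      (Complex.differentiableOn_dslope (ball_mem_nhds _ one_pos)).mpr hHd
    exact this.comp (differentiableOn_bl ha subset_rfl) hmaps'
  · intro z hz
    have := Complex.norm_dslope_le_div_of_mapsTo_ball hHd hHR (hmaps' hz)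
    simpa using this
  · intro z hz
    have h1 := sub_smul_dslope H 0 (bl a z)
    simp only [sub_zero, smul_eq_mul, hH0] at h1
    rw [h1]
    simp only [hH]
    rw [bl_neg_bl ha (mem_ball_zero_iff.mp hz).le]

theorem IsSchur.exists_down {g : ℂ → ℂ} (hg : IsSchur g) {a : ℂ} (ha : ‖a‖ < 1)
    (hγ : ‖g a‖ < 1) :
    ∃ u : ℂ → ℂ, IsSchur u ∧ ∀ z ∈ ball (0:ℂ) 1, g z = Ptak.up a (g a) u z := by
  have hγ' : ‖-g a‖ < 1 := by simpa using hγ
  have hd : DifferentiableOn ℂ (fun z => mob (-g a) (g z)) (ball 0 1) :=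
    differentiableOn_mob_comp hg.1 (fun z hz => one_add_ne hγ' (hg.2 z hz))
  obtain ⟨u, hu, hu1, hu2⟩ := schwarz_factor hd (R := 1)
    (fun z hz => norm_mob_le hγ' (hg.2 z hz)) ha mob_neg_self
  refine ⟨u, ⟨hu, hu1⟩, fun z hz => ?_⟩
  unfold Ptak.up
  rw [← hu2 z hz, mob_mob_neg hγ (hg.2 z hz)]

/-- Uniqueness in the Schur step. -/
theorem up_inj {u v : ℂ → ℂ} {U : Set ℂ} (hUo : IsOpen U) (hU : U ⊆ ball 0 1)
    (hu : DifferentiableOn ℂ u U) (hv : DifferentiableOn ℂ v U) {a γ : ℂ} (ha : a ∈ U)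
    (hγ : ‖γ‖ < 1)
    (hu0 : ∀ z ∈ U, 1 + conj γ * (bl a z * u z) ≠ 0)
    (hv0 : ∀ z ∈ U, 1 + conj γ * (bl a z * v z) ≠ 0)
    (h : ∀ z ∈ U, up a γ u z = up a γ v z) : ∀ z ∈ U, u z = v z := by
  -- use `Cong.down` for all replicate multisets? simpler: direct argument
  have ha1 : ‖a‖ < 1 := mem_ball_zero_iff.mp (hU ha)
  have key : ∀ z ∈ U, z ≠ a → u z = v z := by
    intro z hz hza
    have h5 := h z hz
    have h6 : mob (-γ) (up a γ u z) = mob (-γ) (up a γ v z) := by rw [h5]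
    unfold up at h6
    rw [mob_neg_mob' hγ (hu0 z hz), mob_neg_mob' hγ (hv0 z hz)] at h6
    exact mul_left_cancel₀ (bl_ne_zero ha1 (mem_ball_zero_iff.mp (hU hz)) hza) h6
  intro z hz
  by_cases hza : z = a
  · subst hza
    have c1 : ContinuousAt u z := (hu.differentiableAt (hUo.mem_nhds hz)).continuousAt
    have c2 : ContinuousAt v z := (hv.differentiableAt (hUo.mem_nhds hz)).continuousAt
    have c1' : Tendsto u (𝓝[≠] z) (𝓝 (u z)) := c1.tendsto.mono_left nhdsWithin_le_nhds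
    have c2' : Tendsto v (𝓝[≠] z) (𝓝 (v z)) := c2.tendsto.mono_left nhdsWithin_le_nhds
    refine tendsto_nhds_unique c1' (c2'.congr' ?_)
    have : U ∈ 𝓝[≠] z := mem_nhdsWithin_of_mem_nhds (hUo.mem_nhds hz)
    filter_upwards [this, self_mem_nhdsWithin] with w hw hw'
    exact (key w hw hw').symm
  · exact key z hz hza

end Pool.MP_cf143d_an.Ptak
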