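import Pool.Agent.Lib.MP_cf143d_an.Quot

/-!
# Taylor series at the origin, and the Carathéodory–Fejér problem
-/

open Complex Metric Set Filter Topology
open scoped ComplexConjugate

namespace Pool.MP_cf143d_an.Ptak

/-- Taylor series at `0`. -/
noncomputable def tay (f : ℂ → ℂ) : PowerSeries ℂ :=
  PowerSeries.mk fun k => iteratedDeriv k f 0 / (k.factorial : ℂ)

theorem coeff_tay (f : ℂ → ℂ) (k : ℕ) :
    PowerSeries.coeff k (tay f) = iteratedDeriv k f 0 / (k.factorial : ℂ) := by
  simp [tay]

theorem tay_congr {f g : ℂ → ℂ} (h : f =ᶠ[𝓝 0] g) : tay f = tay g := by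
  ext k
  rw [coeff_tay, coeff_tay, h.iteratedDeriv_eq k]

theorem tay_congr_ball {f g : ℂ → ℂ} (h : ∀ z ∈ ball (0:ℂ) 1, f z = g z) : tay f = tay g :=
  tay_congr (by filter_upwards [ball_mem_nhds (0:ℂ) one_pos] with z hz using h z hz)

theorem tay_mul {f g : ℂ → ℂ} (hf : AnalyticAt ℂ f 0) (hg : AnalyticAt ℂ g 0) :
    tay (fun z => f z * g z) = tay f * tay g := by
  have e : (fun z => f z * g z) = f * g := rfl
  ext m
  rw [e]
  simp only [coeff_tay, PowerSeries.coeff_mul]
  rw [iteratedDeriv_mul hf.contDiffAt hg.contDiffAt,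
    Finset.Nat.sum_antidiagonal_eq_sum_range_succ_mk, Finset.sum_div]
  refine Finset.sum_congr rfl fun i hi => ?_
  rw [Nat.cast_choose _ (by have := Finset.mem_range.mp hi; omega)]
  have h1 : (i.factorial : ℂ) ≠ 0 := by exact_mod_cast i.factorial_ne_zero
  have h2 : ((m - i).factorial : ℂ) ≠ 0 := by exact_mod_cast (m - i).factorial_ne_zero
  have h3 : (m.factorial : ℂ) ≠ 0 := by exact_mod_cast m.factorial_ne_zero
  field_simp

theorem tay_add {f g : ℂ → ℂ} (hf : AnalyticAt ℂ f 0) (hg : AnalyticAt ℂ g 0) :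
    tay (fun z => f z + g z) = tay f + tay g := by
  have e : (fun z => f z + g z) = f + g := rfl
  ext m
  rw [e, map_add]
  simp only [coeff_tay]
  rw [iteratedDeriv_add hf.contDiffAt hg.contDiffAt, add_div]

theorem tay_const (c : ℂ) : tay (fun _ => c) = PowerSeries.C c := by
  ext m
  rw [coeff_tay, iteratedDeriv_const, PowerSeries.coeff_C]
  split_ifs with h
  · subst h; simp
  · simp

theorem tay_id : tay (fun z => z) = PowerSeries.X := by
  ext m
  rw [coeff_tay, PowerSeries.coeff_X]
  have e : (fun z : ℂ => z) = fun z => z ^ 1 := by funext z; simp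
  rw [e, iteratedDeriv_pow]
  split_ifs with h
  · subst h; simp
  · rcases m with _ | m
    · simp
    · have : (1:ℕ).descFactorial (m + 1) = 0 := by
        apply Nat.descFactorial_eq_zero_iff_lt.mpr
        omega
      rw [this]; simp

theorem tay_const_mul {f : ℂ → ℂ} (hf : AnalyticAt ℂ f 0) (c : ℂ) :
    tay (fun z => c * f z) = PowerSeries.C c * tay f := by
  rw [tay_mul analyticAt_const hf, tay_const]

theorem constantCoeff_tay (f : ℂ → ℂ) : PowerSeries.coeff 0 (tay f) = f 0 := by
  rw [coeff_tay]; simp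

/-- A function with vanishing Taylor coefficients of order `< n` is divisible by `z ^ n`. -/
theorem exists_pow_mul_of_tay {n : ℕ} : ∀ {F : ℂ → ℂ}, DifferentiableOn ℂ F (ball 0 1) →
    (∀ i < n, PowerSeries.coeff i (tay F) = 0) →
    ∃ k : ℂ → ℂ, DifferentiableOn ℂ k (ball 0 1) ∧ ∀ z ∈ ball (0:ℂ) 1, F z = z ^ n * k z := by
  induction n with
  | zero =>
    intro F hF _
    exact ⟨F, hF, fun z _ => by simp⟩
  | succ n ih =>
    intro F hF h
    have h0 : F 0 = 0 := by
      rw [← constantCoeff_tay F]; exact h 0 (Nat.succ_pos n)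
    have hd : DifferentiableOn ℂ (dslope F 0) (ball 0 1) :=
      (Complex.differentiableOn_dslope (ball_mem_nhds _ one_pos)).mpr hF
    have hmul : ∀ z, F z = z * dslope F 0 z := by
      intro z
      have := sub_smul_dslope F 0 z
      rw [h0, sub_zero, sub_zero, smul_eq_mul] at this
      exact this.symm
    have han : AnalyticAt ℂ (dslope F 0) 0 := hd.analyticAt (ball_mem_nhds _ one_pos)
    have ht : tay F = PowerSeries.X * tay (dslope F 0) := by
      rw [← tay_id, ← tay_mul (f := fun z => z) (g := dslope F 0) analyticAt_id han]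
      exact tay_congr_ball fun z _ => hmul z
    obtain ⟨k, hk, hkz⟩ := ih hd (by
      intro i hi
      have := h (i + 1) (by omega)
      rwa [ht, PowerSeries.coeff_succ_X_mul] at this)
    refine ⟨k, hk, fun z hz => ?_⟩
    rw [hmul z, hkz z hz, pow_succ]
    ring

theorem tay_pow_mul {k : ℂ → ℂ} (hk : AnalyticAt ℂ k 0) (n : ℕ) :
    tay (fun z => z ^ n * k z) = PowerSeries.X ^ n * tay k := by
  induction n with
  | zero => simp
  | succ n ih =>
    have e : (fun z : ℂ => z ^ (n + 1) * k z) = fun z => z * (z ^ n * k z) := by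
      funext z; ring
    rw [e, tay_mul (f := fun z => z) (g := fun z => z ^ n * k z) analyticAt_id
      ((analyticAt_id.pow n).mul hk), ih, tay_id, pow_succ]
    ring

theorem nodeProd_replicate_zero (n : ℕ) (z : ℂ) :
    nodeProd (Multiset.replicate n 0) z = z ^ n := by
  simp [nodeProd]

theorem cong_zero_iff {n : ℕ} {f g : ℂ → ℂ} (hf : DifferentiableOn ℂ f (ball 0 1))
    (hg : DifferentiableOn ℂ g (ball 0 1)) :
    Cong (ball 0 1) (Multiset.replicate n 0) f g ↔
      ∀ i < n, PowerSeries.coeff i (tay f) = PowerSeries.coeff i (tay g) := by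
  have hfa : AnalyticAt ℂ f 0 := hf.analyticAt (ball_mem_nhds _ one_pos)
  have hga : AnalyticAt ℂ g 0 := hg.analyticAt (ball_mem_nhds _ one_pos)
  have hsub : tay (fun z => f z - g z) = tay f - tay g := by
    have e : (fun z => f z - g z) = fun z => f z + (-1) * g z := by funext z; ring
    rw [e, tay_add (f := f) (g := fun z => (-1) * g z) hfa (analyticAt_const.mul hga),
      tay_const_mul hga]
    simp [sub_eq_add_neg]
  constructor
  · rintro ⟨k, hk, h⟩ i hi
    have hka : AnalyticAt ℂ k 0 := hk.analyticAt (ball_mem_nhds _ one_pos)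
    have h1 : tay (fun z => f z - g z) = PowerSeries.X ^ n * tay k := by
      rw [← tay_pow_mul hka]
      refine tay_congr_ball fun z hz => ?_
      have := h z hz
      rwa [nodeProd_replicate_zero] at this
    have h2 : PowerSeries.coeff i (tay f - tay g) = 0 := by
      rw [← hsub, h1]
      exact (PowerSeries.X_pow_dvd_iff.mp (dvd_mul_right _ _)) i hi
    rw [map_sub] at h2
    exact sub_eq_zero.mp h2
  · intro h
    obtain ⟨k, hk, hkz⟩ := exists_pow_mul_of_tay (n := n) (hf.sub hg) (F := fun z => f z - g z) (by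
      intro i hi
      rw [hsub, map_sub, h i hi, sub_self])
    refine ⟨k, hk, fun z hz => ?_⟩
    rw [nodeProd_replicate_zero]
    exact hkz z hz

/-! ### Contractive power series -/

/-- Sum of the squares of the first `n` coefficients. -/
noncomputable def nsq (n : ℕ) (p : PowerSeries ℂ) : ℝ :=
  ∑ i ∈ Finset.range n, ‖PowerSeries.coeff i p‖ ^ 2

/-- Multiplication by `c` modulo `X ^ n` is a contraction. -/
def Contr (n : ℕ) (c : PowerSeries ℂ) : Prop := ∀ y : PowerSeries ℂ, nsq n (c * y) ≤ nsq n y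

theorem nsq_congr {n : ℕ} {p q : PowerSeries ℂ}
    (h : ∀ i < n, PowerSeries.coeff i p = PowerSeries.coeff i q) : nsq n p = nsq n q := by
  unfold nsq
  refine Finset.sum_congr rfl fun i hi => ?_
  rw [h i (Finset.mem_range.mp hi)]

theorem coeff_mul_congr {n : ℕ} {c c' y y' : PowerSeries ℂ}
    (hc : ∀ i < n, PowerSeries.coeff i c = PowerSeries.coeff i c')
    (hy : ∀ i < n, PowerSeries.coeff i y = PowerSeries.coeff i y') :
    ∀ i < n, PowerSeries.coeff i (c * y) = PowerSeries.coeff i (c' * y') := by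
  intro i hi
  rw [PowerSeries.coeff_mul, PowerSeries.coeff_mul]
  refine Finset.sum_congr rfl fun p hp => ?_
  have := Finset.HasAntidiagonal.mem_antidiagonal.mp hp
  rw [hc p.1 (by omega), hy p.2 (by omega)]

theorem Contr.congr {n : ℕ} {c c' : PowerSeries ℂ} (H : Contr n c)
    (h : ∀ i < n, PowerSeries.coeff i c = PowerSeries.coeff i c') : Contr n c' := by
  intro y
  rw [nsq_congr (coeff_mul_congr (fun i hi => (h i hi).symm) (fun i _ => rfl) :
    ∀ i < n, PowerSeries.coeff i (c' * y) = PowerSeries.coeff i (c * y))]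
  exact H y

theorem contr_C {n : ℕ} {γ : ℂ} (hγ : ‖γ‖ ≤ 1) : Contr n (PowerSeries.C γ) := by
  intro y
  unfold nsq
  refine Finset.sum_le_sum fun i _ => ?_
  rw [PowerSeries.coeff_C_mul, norm_mul, mul_pow]
  have h1 : ‖γ‖ ^ 2 ≤ 1 := by nlinarith [norm_nonneg γ]
  nlinarith [sq_nonneg ‖PowerSeries.coeff i y‖]

theorem nsq_succ_X_mul (n : ℕ) (p : PowerSeries ℂ) : nsq (n + 1) (PowerSeries.X * p) = nsq n p := by
  unfold nsq
  rw [Finset.sum_range_succ']
  simp [PowerSeries.coeff_succ_X_mul]

theorem nsq_mono_succ (n : ℕ) (p : PowerSeries ℂ) : nsq n p ≤ nsq (n + 1) p := by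
  unfold nsq
  rw [Finset.sum_range_succ]
  have := sq_nonneg ‖PowerSeries.coeff n p‖
  linarith

theorem norm_pair (γ a b : ℂ) :
    ‖a + conj γ * b‖ ^ 2 - ‖γ * a + b‖ ^ 2 = (1 - ‖γ‖ ^ 2) * (‖a‖ ^ 2 - ‖b‖ ^ 2) := by
  simp only [← normSq_eq_norm_sq, normSq_apply, add_re, add_im, mul_re, mul_im, conj_re, conj_im]
  ring

theorem nsq_pair (n : ℕ) (γ : ℂ) (a b : PowerSeries ℂ) :
    nsq n (a + PowerSeries.C (conj γ) * b) - nsq n (PowerSeries.C γ * a + b) =
      (1 - ‖γ‖ ^ 2) * (nsq n a - nsq n b) := by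
  unfold nsq
  rw [← Finset.sum_sub_distrib, ← Finset.sum_sub_distrib, Finset.mul_sum]
  refine Finset.sum_congr rfl fun i _ => ?_
  rw [map_add, map_add, PowerSeries.coeff_C_mul, PowerSeries.coeff_C_mul]
  exact norm_pair γ _ _

theorem contr_step {n : ℕ} {γ : ℂ} (hγ : ‖γ‖ < 1) {c u : PowerSeries ℂ}
    (heq : c * (1 + PowerSeries.C (conj γ) * (PowerSeries.X * u)) =
      PowerSeries.C γ + PowerSeries.X * u) :
    Contr (n + 1) c ↔ Contr n u := by
  have hpos : 0 < 1 - ‖γ‖ ^ 2 := by nlinarith [norm_nonneg γ]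
  -- key identity
  have key : ∀ y : PowerSeries ℂ,
      nsq (n + 1) ((1 + PowerSeries.C (conj γ) * (PowerSeries.X * u)) * y) -
        nsq (n + 1) (c * ((1 + PowerSeries.C (conj γ) * (PowerSeries.X * u)) * y)) =
      (1 - ‖γ‖ ^ 2) * (nsq (n + 1) y - nsq n (u * y)) := by
    intro y
    have e0 : c * ((1 + PowerSeries.C (conj γ) * (PowerSeries.X * u)) * y) =
        (PowerSeries.C γ + PowerSeries.X * u) * y := by
      rw [← heq]; ring
    rw [e0]
    have e1 : (1 + PowerSeries.C (conj γ) * (PowerSeries.X * u)) * y =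
        y + PowerSeries.C (conj γ) * (PowerSeries.X * (u * y)) := by ring
    have e2 : (PowerSeries.C γ + PowerSeries.X * u) * y =
        PowerSeries.C γ * y + PowerSeries.X * (u * y) := by ring
    rw [e1, e2, nsq_pair, nsq_succ_X_mul]
  constructor
  · intro H y
    set y' : PowerSeries ℂ := PowerSeries.mk fun i => if i < n then PowerSeries.coeff i y else 0
      with hy'
    have hyy : ∀ i < n, PowerSeries.coeff i y' = PowerSeries.coeff i y := by
      intro i hi
      simp [hy', hi]
    have h1 : nsq n (u * y') = nsq n (u * y) :=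
      nsq_congr (coeff_mul_congr (fun i _ => rfl) hyy)
    have h2 : nsq (n + 1) y' = nsq n y := by
      unfold nsq
      rw [Finset.sum_range_succ]
      have : PowerSeries.coeff n y' = 0 := by simp [hy']
      rw [this]
      simp only [norm_zero, ne_eq, OfNat.ofNat_ne_zero, not_false_eq_true, zero_pow, add_zero]
      exact Finset.sum_congr rfl fun i hi => by rw [hyy i (Finset.mem_range.mp hi)]
    have h3 := key y'
    have h4 := H ((1 + PowerSeries.C (conj γ) * (PowerSeries.X * u)) * y')
    rw [h1, h2] at h3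
    have h5 : 0 ≤ (1 - ‖γ‖ ^ 2) * (nsq n y - nsq n (u * y)) := by linarith
    have := nonneg_of_mul_nonneg_right h5 hpos
    linarith
  · intro H x
    set D : PowerSeries ℂ := 1 + PowerSeries.C (conj γ) * (PowerSeries.X * u) with hD
    have hD0 : PowerSeries.constantCoeff D ≠ 0 := by simp [hD]
    have hx : D * (D⁻¹ * x) = x := by
      rw [← mul_assoc, PowerSeries.mul_inv_cancel D hD0, one_mul]
    have h3 := key (D⁻¹ * x)
    rw [hx] at h3
    have h4 := H (D⁻¹ * x)
    have h5 := nsq_mono_succ n (D⁻¹ * x)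
    have h6 : 0 ≤ (1 - ‖γ‖ ^ 2) * (nsq (n + 1) (D⁻¹ * x) - nsq n (u * (D⁻¹ * x))) :=
      mul_nonneg hpos.le (by linarith)
    linarith

theorem tay_up {γ : ℂ} (hγ : ‖γ‖ < 1) {u : ℂ → ℂ} (hu : IsSchur u) :
    tay (up 0 γ u) * (1 + PowerSeries.C (conj γ) * (PowerSeries.X * tay u)) =
      PowerSeries.C γ + PowerSeries.X * tay u := by
  have h0 : ‖(0:ℂ)‖ < 1 := by simp
  have hua : AnalyticAt ℂ u 0 := hu.1.analyticAt (ball_mem_nhds _ one_pos)
  have hga : AnalyticAt ℂ (up 0 γ u) 0 := (hu.up h0 hγ).1.analyticAt (ball_mem_nhds _ one_pos)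
  have e1 : PowerSeries.X * tay u = tay (fun z => z * u z) := by
    rw [tay_mul (f := fun z => z) (g := u) analyticAt_id hua, tay_id]
  have hzu : AnalyticAt ℂ (fun z => z * u z) 0 := analyticAt_id.mul hua
  have e2 : 1 + PowerSeries.C (conj γ) * (PowerSeries.X * tay u) =
      tay (fun z => 1 + conj γ * (z * u z)) := by
    rw [tay_add (f := fun _ => 1) (g := fun z => conj γ * (z * u z)) analyticAt_const
      (analyticAt_const.mul hzu), tay_const_mul hzu, e1, tay_const]
    simp
  have e3 : PowerSeries.C γ + PowerSeries.X * tay u = tay (fun z => γ + z * u z) := by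
    rw [tay_add (f := fun _ => γ) (g := fun z => z * u z) analyticAt_const hzu, e1, tay_const]
  rw [e2, e3, ← tay_mul (f := up 0 γ u) (g := fun z => 1 + conj γ * (z * u z)) hga
    (analyticAt_const.add (analyticAt_const.mul hzu))]
  refine tay_congr_ball fun z hz => ?_
  have hne := hu.den_ne h0 hγ z hz
  have hbl : bl 0 z = z := by simp [bl]
  rw [hbl] at hne
  simp only [up, mob, hbl]
  rw [div_mul_cancel₀ _ hne, add_comm]

/-- **Schur, necessity**. -/
theorem IsSchur.contr (n : ℕ) : ∀ {g : ℂ → ℂ}, IsSchur g → Contr n (tay g) := by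
  induction n with
  | zero => intro g _ y; simp [nsq]
  | succ n ih =>
    intro g hg
    have h0 : ‖(0:ℂ)‖ < 1 := by simp
    rcases (hg.norm_le h0).lt_or_eq with h | h
    · obtain ⟨u, hu, hgu⟩ := hg.exists_down h0 h
      rw [tay_congr_ball hgu]
      exact (contr_step h (tay_up h hu)).mpr (ih hu)
    · have hc : ∀ z ∈ ball (0:ℂ) 1, g z = g 0 :=
        fun z hz => hg.const_of_norm_eq h0 h z (mem_ball_zero_iff.mp hz)
      rw [tay_congr_ball (g := fun _ => g 0) hc, tay_const]
      exact contr_C h.le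

/-- **Carathéodory–Fejér–Schur, sufficiency**. -/
theorem exists_schur_of_contr (n : ℕ) : ∀ {c : PowerSeries ℂ}, Contr n c →
    ∃ g, IsSchur g ∧ ∀ i < n, PowerSeries.coeff i (tay g) = PowerSeries.coeff i c := by
  induction n with
  | zero =>
    intro c _
    exact ⟨fun _ => 0, ⟨differentiableOn_const _, fun z _ => by simp⟩, fun i hi => by omega⟩
  | succ n ih =>
    intro c hc
    set γ := PowerSeries.coeff 0 c with hγ
    have h1 := hc 1
    rw [mul_one] at h1
    have h2 : nsq (n + 1) (1 : PowerSeries ℂ) = 1 := by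
      unfold nsq
      rw [Finset.sum_range_succ']
      simp [PowerSeries.coeff_one]
    rw [h2] at h1
    have h3 : nsq (n + 1) c = (∑ i ∈ Finset.range n, ‖PowerSeries.coeff (i + 1) c‖ ^ 2) + ‖γ‖ ^ 2 := by
      unfold nsq
      rw [Finset.sum_range_succ']
    have h4 : 0 ≤ ∑ i ∈ Finset.range n, ‖PowerSeries.coeff (i + 1) c‖ ^ 2 :=
      Finset.sum_nonneg fun i _ => sq_nonneg _
    have hγ1 : ‖γ‖ ≤ 1 := by nlinarith [norm_nonneg γ]
    rcases hγ1.lt_or_eq with h | h
    · -- Schur step
      set q : PowerSeries ℂ := PowerSeries.mk fun i => PowerSeries.coeff (i + 1) c with hq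
      have hcq : c = PowerSeries.C γ + PowerSeries.X * q := by
        ext i
        rcases i with _ | i
        · simp [hγ]
        · rw [map_add, PowerSeries.coeff_succ_X_mul]
          simp [hq]
      set D : PowerSeries ℂ := 1 - PowerSeries.C (conj γ) * c with hD
      have hD0 : PowerSeries.constantCoeff D ≠ 0 := by
        have : PowerSeries.constantCoeff D = 1 - conj γ * γ := by
          simp [hD, hγ]
        rw [this]
        exact one_sub_ne h h.le
      set u : PowerSeries ℂ := q * D⁻¹ with hu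
      have huD : u * D = q := by
        rw [hu, mul_assoc, PowerSeries.inv_mul_cancel D hD0, mul_one]
      have hDunit : IsUnit D := PowerSeries.isUnit_iff_constantCoeff.mpr (isUnit_iff_ne_zero.mpr hD0)
      have heq : c * (1 + PowerSeries.C (conj γ) * (PowerSeries.X * u)) =
          PowerSeries.C γ + PowerSeries.X * u := by
        apply hDunit.mul_right_cancel
        have e1 : c * (1 + PowerSeries.C (conj γ) * (PowerSeries.X * u)) * D =
            c * (D + PowerSeries.C (conj γ) * (PowerSeries.X * (u * D))) := by ring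
        have e2 : (PowerSeries.C γ + PowerSeries.X * u) * D =
            PowerSeries.C γ * D + PowerSeries.X * (u * D) := by ring
        rw [e1, e2, huD]
        have e3 : PowerSeries.X * q = c - PowerSeries.C γ := by rw [hcq]; ring
        rw [e3, hD]
        ring
      have hcu : Contr n u := (contr_step h heq).mp hc
      obtain ⟨g, hg, hgc⟩ := ih hcu
      have h0 : ‖(0:ℂ)‖ < 1 := by simp
      refine ⟨up 0 γ g, hg.up h0 h, ?_⟩
      have ht := tay_up h hg
      -- compare
      set c' := tay (up 0 γ g) with hc'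
      set u' := tay g with hu'
      have hdvd : (PowerSeries.X : PowerSeries ℂ) ^ (n + 1) ∣ c - c' := by
        have hud : (PowerSeries.X : PowerSeries ℂ) ^ n ∣ u - u' := by
          rw [PowerSeries.X_pow_dvd_iff]
          intro m hm
          rw [map_sub, hgc m hm, sub_self]
        have e : (c - c') * (1 + PowerSeries.C (conj γ) * (PowerSeries.X * u')) =
            (PowerSeries.X * (u - u')) * (1 - PowerSeries.C (conj γ) * c) := by
          linear_combination heq - ht
        have hunit : IsUnit (1 + PowerSeries.C (conj γ) * (PowerSeries.X * u') :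
            PowerSeries ℂ) := by
          apply PowerSeries.isUnit_iff_constantCoeff.mpr
          simp
        rw [← hunit.dvd_mul_right, e, pow_succ']
        exact Dvd.dvd.mul_right (mul_dvd_mul_left _ hud) _
      intro i hi
      have := PowerSeries.X_pow_dvd_iff.mp hdvd i hi
      rw [map_sub] at this
      exact (sub_eq_zero.mp this).symm
    · refine ⟨fun _ => γ, ⟨differentiableOn_const _, fun z _ => h.le⟩, ?_⟩
      intro i hi
      rw [tay_const]
      rcases i with _ | i
      · simp [hγ]
      · have h5 : ∑ i ∈ Finset.range n, ‖PowerSeries.coeff (i + 1) c‖ ^ 2 ≤ 0 := by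
          rw [h3, h] at h1; linarith
        have h6 : ∑ i ∈ Finset.range n, ‖PowerSeries.coeff (i + 1) c‖ ^ 2 = 0 := le_antisymm h5 h4
        have h7 := (Finset.sum_eq_zero_iff_of_nonneg (fun i _ => sq_nonneg _)).mp h6 i
          (Finset.mem_range.mpr (by omega))
        have h8 : PowerSeries.coeff (i + 1) c = 0 := by
          have := pow_eq_zero_iff (two_ne_zero) |>.mp h7
          exact norm_eq_zero.mp this
        rw [h8, PowerSeries.coeff_C]
        simp

end Pool.MP_cf143d_an.Ptak
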