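import Pool.Agent.Lib.MP_cf143d_an.Schur

/-!
# Termination of the Schur algorithm
-/

open Complex Metric Set Filter Topology
open scoped ComplexConjugate

namespace Pool.MP_cf143d_an.Ptak

/-- The Schur algorithm of `g` along the list `L` of nodes reaches a unimodular constant
(so `g` is a finite Blaschke product of degree at most `L.length`). -/
inductive Term : (ℂ → ℂ) → List ℂ → Prop
  | const (g : ℂ → ℂ) (c : ℂ) (L : List ℂ) (hc : ‖c‖ = 1)
      (hg : ∀ z ∈ ball (0:ℂ) 1, g z = c) : Term g L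
  | step (g u : ℂ → ℂ) (a γ : ℂ) (L : List ℂ) (ha : ‖a‖ < 1) (hγ : ‖γ‖ < 1) (hu : IsSchur u)
      (hg : ∀ z ∈ ball (0:ℂ) 1, g z = up a γ u z) (ht : Term u L) : Term g (a :: L)

/-- `g` is congruent modulo `A` to a function of sup norm `< 1`. -/
def Strict (A : Multiset ℂ) (g : ℂ → ℂ) : Prop :=
  ∃ (g' : ℂ → ℂ) (ρ : ℝ), DifferentiableOn ℂ g' (ball 0 1) ∧ 0 ≤ ρ ∧ ρ < 1 ∧
    (∀ z ∈ ball (0:ℂ) 1, ‖g' z‖ ≤ ρ) ∧ Cong (ball 0 1) A g g'

theorem term_or_strict (L : List ℂ) : ∀ (g : ℂ → ℂ), IsSchur g → (∀ b ∈ L, ‖b‖ < 1) →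
    ∀ a : ℂ, ‖a‖ < 1 → Term g L ∨ Strict (a ::ₘ (L : Multiset ℂ)) g := by
  induction L with
  | nil =>
    intro g hg _ a ha
    have h1 : ‖g a‖ ≤ 1 := hg.norm_le ha
    rcases h1.lt_or_eq with h | h
    · right
      refine ⟨fun _ => g a, ‖g a‖, differentiableOn_const _, norm_nonneg _, h,
        fun z _ => le_rfl, ?_⟩
      exact Cong.of_eval isOpen_ball hg.1 (differentiableOn_const _)
        (mem_ball_zero_iff.mpr ha) rfl
    · left
      exact Term.const g (g a) [] h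
        (fun z hz => hg.const_of_norm_eq ha h z (mem_ball_zero_iff.mp hz))
  | cons b L ih =>
    intro g hg hL a ha
    have hb : ‖b‖ < 1 := hL b (by simp)
    have hL' : ∀ b ∈ L, ‖b‖ < 1 := fun x hx => hL x (by simp [hx])
    have h1 : ‖g b‖ ≤ 1 := hg.norm_le hb
    rcases h1.lt_or_eq with h | h
    · obtain ⟨u, hu, hgu⟩ := hg.exists_down hb h
      rcases ih u hu hL' a ha with h2 | ⟨u', ρ, hu'd, hρ0, hρ1, hu', hc⟩
      · left
        exact Term.step g u b (g b) L hb h hu hgu h2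
      · right
        have hu'S : IsSchur u' := ⟨hu'd, fun z hz => (hu' z hz).trans hρ1.le⟩
        obtain ⟨ρ', hρ'0, hρ'1, hρ'⟩ := exists_bound_mob h hρ0 hρ1
        refine ⟨up b (g b) u', ρ', (hu'S.up hb h).1, hρ'0, hρ'1, ?_, ?_⟩
        · intro z hz
          unfold up
          apply hρ'
          rw [norm_mul]
          calc ‖bl b z‖ * ‖u' z‖ ≤ 1 * ρ :=
                mul_le_mul (norm_bl_lt hb (mem_ball_zero_iff.mp hz)).le (hu' z hz)
                  (norm_nonneg _) zero_le_one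
            _ = ρ := one_mul _
        · have := Cong.up subset_rfl hb hu.1 hu'd (hu.den_ne hb h) (hu'S.den_ne hb h) hc
          have h3 : (a ::ₘ ((b :: L : List ℂ) : Multiset ℂ)) = b ::ₘ a ::ₘ (L : Multiset ℂ) := by
            rw [← Multiset.cons_coe, Multiset.cons_swap]
          rw [h3]
          exact this.congr_left hgu
    · left
      exact Term.const g (g b) _ h
        (fun z hz => hg.const_of_norm_eq hb h z (mem_ball_zero_iff.mp hz))

theorem Term.eq_of_cong {g : ℂ → ℂ} {L : List ℂ} (ht : Term g L) :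
    ∀ (g' : ℂ → ℂ), IsSchur g' → ∀ a : ℂ, ‖a‖ < 1 → (∀ b ∈ L, ‖b‖ < 1) →
    Cong (ball 0 1) (a ::ₘ (L : Multiset ℂ)) g' g → ∀ z ∈ ball (0:ℂ) 1, g' z = g z := by
  induction ht with
  | const g c L hc hg =>
    intro g' hg' a ha _ hcong z hz
    have h1 : g' a = g a := hcong.eval (by simp) (mem_ball_zero_iff.mpr ha)
    rw [hg a (mem_ball_zero_iff.mpr ha)] at h1
    rw [hg z hz, ← h1]
    exact hg'.const_of_norm_eq ha (by rw [h1, hc]) z (mem_ball_zero_iff.mp hz)
  | step g u b γ L hb hγ hu hg ht ih =>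
    intro g' hg' a ha hL hcong z hz
    have hbm : b ∈ ball (0:ℂ) 1 := mem_ball_zero_iff.mpr hb
    have h1 : g' b = γ := by
      rw [hcong.eval (a := b) (by simp) hbm, hg b hbm, up_self]
    obtain ⟨u', hu', hgu'⟩ := hg'.exists_down hb (by rw [h1]; exact hγ)
    rw [h1] at hgu'
    have h3 : (a ::ₘ ((b :: L : List ℂ) : Multiset ℂ)) = b ::ₘ a ::ₘ (L : Multiset ℂ) := by
      rw [← Multiset.cons_coe, Multiset.cons_swap]
    rw [h3] at hcong
    have h4 : Cong (ball 0 1) (b ::ₘ a ::ₘ (L : Multiset ℂ)) (up b γ u') (up b γ u) :=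
      (hcong.congr_left (fun z hz => (hgu' z hz).symm)).congr_right (fun z hz => (hg z hz).symm)
    have h5 := Cong.down isOpen_ball subset_rfl hbm hγ hu'.1 hu.1 (hu'.den_ne hb hγ)
      (hu.den_ne hb hγ) h4
    have h6 := ih u' hu' a ha (fun x hx => hL x (by simp [hx])) h5 z hz
    rw [hgu' z hz, hg z hz]
    unfold up
    rw [h6]

theorem Term.not_bounded {g : ℂ → ℂ} {L : List ℂ} (ht : Term g L) :
    ∀ ρ : ℝ, ρ < 1 → (∀ z ∈ ball (0:ℂ) 1, ‖g z‖ ≤ ρ) → False := by
  induction ht with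
  | const g c L hc hg =>
    intro ρ hρ h
    have := h 0 (by simp)
    rw [hg 0 (by simp), hc] at this
    linarith
  | step g u b γ L hb hγ hu hg ht ih =>
    intro ρ hρ h
    have hρ0 : 0 ≤ ρ := (norm_nonneg _).trans (h 0 (by simp))
    have hγ' : ‖-γ‖ < 1 := by simpa using hγ
    obtain ⟨ρ', hρ'0, hρ'1, hρ'⟩ := exists_bound_mob hγ' hρ0 hρ
    have hbm : b ∈ ball (0:ℂ) 1 := mem_ball_zero_iff.mpr hb
    have hgS : IsSchur (up b γ u) := hu.up hb hγ
    -- bl b z * u z = mob (-γ) (g z)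
    have h1 : ∀ z ∈ ball (0:ℂ) 1, mob (-γ) (g z) = bl b z * u z := by
      intro z hz
      rw [hg z hz]
      unfold up
      exact mob_neg_mob' hγ (hu.den_ne hb hγ z hz)
    have hd : DifferentiableOn ℂ (fun z => bl b z * u z) (ball 0 1) :=
      (differentiableOn_bl hb subset_rfl).mul hu.1
    obtain ⟨v, hv, hvb, hv2⟩ := schwarz_factor hd (R := ρ') (fun z hz => by
      rw [← h1 z hz]; exact hρ' _ (h z hz)) hb (by simp [bl_self])
    have hvS : IsSchur v := ⟨hv, fun z hz => (hvb z hz).trans hρ'1.le⟩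
    have h7 : ∀ z ∈ ball (0:ℂ) 1, u z = v z :=
      up_inj isOpen_ball subset_rfl hu.1 hv hbm hγ (hu.den_ne hb hγ) (hvS.den_ne hb hγ)
        (fun z hz => by unfold up; rw [hv2 z hz])
    exact ih ρ' hρ'1 (fun z hz => by rw [h7 z hz]; exact hvb z hz)

theorem Term.not_strict {g : ℂ → ℂ} {L : List ℂ} (ht : Term g L) {a : ℂ} (ha : ‖a‖ < 1)
    (hL : ∀ b ∈ L, ‖b‖ < 1) : ¬ Strict (a ::ₘ (L : Multiset ℂ)) g := by
  rintro ⟨g', ρ, hd, hρ0, hρ1, hb, hc⟩
  have hS : IsSchur g' := ⟨hd, fun z hz => (hb z hz).trans hρ1.le⟩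
  have h := ht.eq_of_cong g' hS a ha hL hc.symm
  exact ht.not_bounded ρ hρ1 (fun z hz => by rw [← h z hz]; exact hb z hz)

/-- If the extremal value at a node configuration is `1`, then the Schur algorithm of an
interpolant terminates along any list obtained by dropping one of the nodes. -/
theorem term_of_not_strict {g : ℂ → ℂ} (hg : IsSchur g) {a : ℂ} {L : List ℂ} (ha : ‖a‖ < 1)
    (hL : ∀ b ∈ L, ‖b‖ < 1) (h : ¬ Strict (a ::ₘ (L : Multiset ℂ)) g) : Term g L :=
  (term_or_strict L g hg hL a ha).resolve_right h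

theorem not_strict_exchange {g : ℂ → ℂ} (hg : IsSchur g) {a a' : ℂ} {A : Multiset ℂ}
    (ha : ‖a‖ < 1) (ha' : ‖a'‖ < 1) (hA : ∀ b ∈ A, ‖b‖ < 1) (h : ¬ Strict (a ::ₘ A) g) :
    ¬ Strict (a' ::ₘ A) g := by
  have e : ((A.toList : List ℂ) : Multiset ℂ) = A := Multiset.coe_toList A
  have hL : ∀ b ∈ A.toList, ‖b‖ < 1 := fun b hb => hA b (by simpa using hb)
  rw [← e] at h ⊢
  exact (term_of_not_strict hg ha hL h).not_strict ha' hL

theorem not_strict_of_not_strict {g : ℂ → ℂ} (hg : IsSchur g) (A : Multiset ℂ) :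
    ∀ (B R : Multiset ℂ), A.card = B.card → (∀ b ∈ A, ‖b‖ < 1) → (∀ b ∈ B, ‖b‖ < 1) →
    (∀ b ∈ R, ‖b‖ < 1) → ¬ Strict (A + R) g → ¬ Strict (B + R) g := by
  induction A using Multiset.induction_on with
  | empty =>
    intro B R hc _ _ _ h
    have : B = 0 := by
      rw [← Multiset.card_eq_zero, ← hc]; simp
    rwa [this]
  | cons a A ih =>
    intro B R hc hA hB hR h
    obtain ⟨b, hb⟩ : ∃ b, b ∈ B := by
      apply Multiset.exists_mem_of_ne_zero
      rintro rfl
      simp at hc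
    obtain ⟨B', rfl⟩ := Multiset.exists_cons_of_mem hb
    have hc' : A.card = B'.card := by simpa using hc
    have h1 : ¬ Strict (b ::ₘ (A + R)) g := by
      refine not_strict_exchange hg (hA a (by simp)) (hB b (by simp)) ?_ (by simpa using h)
      intro x hx
      rcases Multiset.mem_add.mp hx with hx | hx
      · exact hA x (by simp [hx])
      · exact hR x hx
    have h2 : ¬ Strict (A + (b ::ₘ R)) g := by
      rwa [Multiset.add_cons]
    have h3 := ih B' (b ::ₘ R) hc' (fun x hx => hA x (by simp [hx]))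
      (fun x hx => hB x (by simp [hx])) (by
        intro x hx
        rcases Multiset.mem_cons.mp hx with rfl | hx
        · exact hB x (by simp)
        · exact hR x hx) h2
    rwa [Multiset.add_cons, ← Multiset.cons_add] at h3

end Pool.MP_cf143d_an.Ptak
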