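import Pool.Agent.Lib.MP_cf143d_an.Taylor
import Pool.Agent.Lib.MP_cf143d_an.Main

/-!
# Toeplitz matrices and change of variables
-/

open Complex Metric Set Filter Topology Polynomial
open scoped ComplexConjugate

namespace Pool.MP_cf143d_an.Ptak

/-- The lower triangular Toeplitz matrix of the first `n` coefficients of a power series. -/
noncomputable def toep (n : ℕ) (c : PowerSeries ℂ) : Matrix (Fin n) (Fin n) ℂ :=
  Matrix.of fun i j => if j ≤ i then PowerSeries.coeff ((i:ℕ) - j) c else 0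

/-- The power series with coefficients `x j` for `j < n`. -/
noncomputable def vecSeries {n : ℕ} (x : Fin n → ℂ) : PowerSeries ℂ :=
  PowerSeries.mk fun j => if h : j < n then x ⟨j, h⟩ else 0

theorem coeff_vecSeries {n : ℕ} (x : Fin n → ℂ) (i : Fin n) :
    PowerSeries.coeff (i:ℕ) (vecSeries x) = x i := by
  simp [vecSeries]

theorem toep_mulVec {n : ℕ} (c : PowerSeries ℂ) (x : Fin n → ℂ) (i : Fin n) :
    (toep n c).mulVec x i = PowerSeries.coeff (i:ℕ) (c * vecSeries x) := by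
  rw [mul_comm, PowerSeries.coeff_mul, Finset.Nat.sum_antidiagonal_eq_sum_range_succ_mk]
  have h1 : ∑ k ∈ Finset.range ((i:ℕ) + 1), PowerSeries.coeff k (vecSeries x) *
      PowerSeries.coeff ((i:ℕ) - k) c =
      ∑ k ∈ Finset.range n, if k ≤ (i:ℕ) then PowerSeries.coeff k (vecSeries x) *
      PowerSeries.coeff ((i:ℕ) - k) c else 0 := by
    rw [← Finset.sum_filter]
    apply Finset.sum_congr _ (fun _ _ => rfl)
    ext k
    simp only [Finset.mem_range, Finset.mem_filter]
    have := i.2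
    omega
  rw [h1, Finset.sum_range]
  unfold Matrix.mulVec dotProduct
  refine Finset.sum_congr rfl fun j _ => ?_
  simp only [toep, Matrix.of_apply, Fin.le_def]
  split_ifs with h
  · rw [coeff_vecSeries]; ring
  · simp

theorem toep_one (n : ℕ) : toep n 1 = 1 := by
  ext i j
  simp only [toep, Matrix.of_apply, Matrix.one_apply, PowerSeries.coeff_one, Fin.le_def,
    Fin.ext_iff]
  split_ifs <;> first | rfl | omega

theorem toep_mul (n : ℕ) (c d : PowerSeries ℂ) : toep n (c * d) = toep n c * toep n d := by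
  apply Matrix.toLin'.injective
  apply LinearMap.ext
  intro x
  funext i
  rw [Matrix.toLin'_mul, LinearMap.comp_apply, Matrix.toLin'_apply, Matrix.toLin'_apply,
    Matrix.toLin'_apply, toep_mulVec, toep_mulVec]
  have h : ∀ k < n, PowerSeries.coeff k (d * vecSeries x) =
      PowerSeries.coeff k (vecSeries ((toep n d).mulVec x)) := by
    intro k hk
    have := coeff_vecSeries ((toep n d).mulVec x) ⟨k, hk⟩
    rw [toep_mulVec] at this
    exact this.symm
  rw [mul_assoc]
  exact coeff_mul_congr (fun _ _ => rfl) h i i.2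

theorem toep_add (n : ℕ) (c d : PowerSeries ℂ) : toep n (c + d) = toep n c + toep n d := by
  ext i j
  simp only [toep, Matrix.of_apply, Matrix.add_apply, map_add]
  split_ifs <;> simp

theorem toep_C (n : ℕ) (a : ℂ) : toep n (PowerSeries.C a) = a • 1 := by
  ext i j
  simp only [toep, Matrix.of_apply, Matrix.smul_apply, Matrix.one_apply, PowerSeries.coeff_C,
    Fin.le_def, Fin.ext_iff, smul_eq_mul]
  split_ifs <;> first | omega | simp

theorem toep_pow (n : ℕ) (c : PowerSeries ℂ) (m : ℕ) : toep n (c ^ m) = toep n c ^ m := by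
  induction m with
  | zero => simp [toep_one]
  | succ m ih => rw [pow_succ, toep_mul, ih, pow_succ]

theorem nsq_eq_sum {n : ℕ} (p : PowerSeries ℂ) :
    nsq n p = ∑ i : Fin n, ‖PowerSeries.coeff (i:ℕ) p‖ ^ 2 := by
  unfold nsq
  rw [Finset.sum_range]

theorem norm_toep_apply_sq {n : ℕ} (c : PowerSeries ℂ) (x : EuclideanSpace ℂ (Fin n)) :
    ‖Matrix.toEuclideanCLM (𝕜 := ℂ) (toep n c) x‖ ^ 2 = nsq n (c * vecSeries x.ofLp) := by
  rw [EuclideanSpace.norm_sq_eq, nsq_eq_sum]
  refine Finset.sum_congr rfl fun i _ => ?_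
  rw [← toep_mulVec]
  rfl

theorem norm_sq_eq_nsq {n : ℕ} (x : EuclideanSpace ℂ (Fin n)) :
    ‖x‖ ^ 2 = nsq n (vecSeries x.ofLp) := by
  rw [EuclideanSpace.norm_sq_eq, nsq_eq_sum]
  refine Finset.sum_congr rfl fun i _ => ?_
  rw [coeff_vecSeries]

theorem norm_toep_le_one_iff {n : ℕ} (c : PowerSeries ℂ) :
    ‖Matrix.toEuclideanCLM (𝕜 := ℂ) (toep n c)‖ ≤ 1 ↔ Contr n c := by
  constructor
  · intro h y
    set x : EuclideanSpace ℂ (Fin n) :=
      WithLp.toLp 2 fun i : Fin n => PowerSeries.coeff (i:ℕ) y with hx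
    have hxy : ∀ i < n, PowerSeries.coeff i (vecSeries x.ofLp) = PowerSeries.coeff i y := by
      intro i hi
      exact coeff_vecSeries x.ofLp ⟨i, hi⟩
    have h1 : ‖Matrix.toEuclideanCLM (𝕜 := ℂ) (toep n c) x‖ ≤ ‖x‖ := by
      have := ContinuousLinearMap.le_of_opNorm_le _ h x
      rwa [one_mul] at this
    have h2 := pow_le_pow_left₀ (norm_nonneg _) h1 2
    rw [norm_toep_apply_sq, norm_sq_eq_nsq] at h2
    rwa [nsq_congr (coeff_mul_congr (fun _ _ => rfl) hxy), nsq_congr hxy] at h2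
  · intro h
    refine ContinuousLinearMap.opNorm_le_bound _ zero_le_one fun x => ?_
    rw [one_mul]
    apply le_of_sq_le_sq _ (norm_nonneg _)
    rw [norm_toep_apply_sq, norm_sq_eq_nsq]
    exact h _

/-- Carathéodory–Fejér–Schur: the quotient norm modulo `z ^ n`. -/
theorem quotNorm_replicate_zero {h : ℂ → ℂ} (hh : MemHinf h) (n : ℕ) :
    quotNorm h (nodePoly (Multiset.replicate n 0)) =
      ‖Matrix.toEuclideanCLM (𝕜 := ℂ) (toep n (tay h))‖ := by
  have h0 : ∀ a ∈ Multiset.replicate n (0:ℂ), ‖a‖ < 1 := by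
    intro a ha; rw [Multiset.eq_of_mem_replicate ha]; simp
  have key : ∀ {f : ℂ → ℂ}, MemHinf f → (quotNorm f (nodePoly (Multiset.replicate n 0)) ≤ 1 ↔
      ‖Matrix.toEuclideanCLM (𝕜 := ℂ) (toep n (tay f))‖ ≤ 1) := by
    intro f hf
    rw [norm_toep_le_one_iff]
    constructor
    · intro h
      obtain ⟨g, hg, hc⟩ := exists_schur_of_quotNorm_le hf h0 h
      have := (cong_zero_iff hf.1 hg.1).mp hc
      exact (hg.contr n).congr fun i hi => (this i hi).symm
    · intro h
      obtain ⟨g, hg, hc⟩ := exists_schur_of_contr n h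
      refine quotNorm_le_of_cong hf h0 hg.2 ?_
      exact (cong_zero_iff hf.1 hg.1).mpr fun i hi => (hc i hi).symm
  have key2 : ∀ M : ℝ, 0 < M → (quotNorm h (nodePoly (Multiset.replicate n 0)) ≤ M ↔
      ‖Matrix.toEuclideanCLM (𝕜 := ℂ) (toep n (tay h))‖ ≤ M) := by
    intro M hM
    have hMc : ((M⁻¹ : ℝ) : ℂ) ≠ 0 := by exact_mod_cast (inv_pos.mpr hM).ne'
    have hnorm : ‖((M⁻¹ : ℝ) : ℂ)‖ = M⁻¹ := by
      rw [norm_real, Real.norm_of_nonneg (inv_pos.mpr hM).le]
    have h1 := key (hh.const_mul ((M⁻¹ : ℝ) : ℂ))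
    rw [quotNorm_const_mul hh _ hMc, hnorm, inv_mul_le_iff₀ hM, mul_one,
      tay_const_mul (hh.1.analyticAt (ball_mem_nhds _ one_pos)), toep_mul, toep_C, smul_mul_assoc,
      one_mul, map_smul, norm_smul, hnorm, inv_mul_le_iff₀ hM, mul_one] at h1
    exact h1
  apply le_antisymm
  · apply le_of_forall_pos_le_add
    intro ε hε
    refine (key2 _ ?_).mpr ?_
    · positivity
    · linarith
  · apply le_of_forall_pos_le_add
    intro ε hε
    refine (key2 _ ?_).mp ?_
    · have := quotNorm_nonneg h (nodePoly (Multiset.replicate n 0)); positivity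
    · linarith

/-! ### Change of variables -/

theorem quotNorm_comp_le {h₁ h₂ : ℂ → ℂ} {p₁ p₂ : ℂ[X]} (hh₁ : MemHinf h₁) {φ q : ℂ → ℂ} {c : ℂ}
    (hφ : DifferentiableOn ℂ φ (ball 0 1)) (hm : MapsTo φ (ball 0 1) (ball 0 1))
    (hc : ‖c‖ = 1) (hh : ∀ z ∈ ball (0:ℂ) 1, h₂ z = c * h₁ (φ z)) (hq : MemHinf q)
    (hp : ∀ z ∈ ball (0:ℂ) 1, c * p₁.eval (φ z) = p₂.eval z * q z) :
    quotNorm h₂ p₂ ≤ quotNorm h₁ p₁ := by
  apply le_of_forall_pos_lt_add
  intro ε hε
  obtain ⟨k, hk, C', hC', hb⟩ := exists_of_quotNorm_lt hh₁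
    (show quotNorm h₁ p₁ < quotNorm h₁ p₁ + ε by linarith)
  refine lt_of_le_of_lt (quotNorm_le (g := fun z => q z * k (φ z)) ?_ fun z hz => ?_) hC'
  · obtain ⟨Cq, hCq⟩ := hq.2
    obtain ⟨Ck, hCk⟩ := hk.2
    refine ⟨hq.1.mul (hk.1.comp hφ hm), Cq * Ck, fun z hz => ?_⟩
    rw [norm_mul]
    exact mul_le_mul (hCq z hz) (hCk _ (hm hz)) (norm_nonneg _)
      ((norm_nonneg _).trans (hCq z hz))
  · have e : h₂ z - p₂.eval z * (q z * k (φ z)) = c * (h₁ (φ z) - p₁.eval (φ z) * k (φ z)) := by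
      rw [hh z hz]
      linear_combination k (φ z) * hp z hz
    rw [e, norm_mul, hc, one_mul]
    exact hb _ (hm hz)

theorem memHinf_pow_inv {a : ℂ} (ha : ‖a‖ < 1) (s : ℂ) (n : ℕ) :
    MemHinf (fun z => (s / (1 - conj a * z)) ^ n) := by
  refine ⟨?_, (‖s‖ / (1 - ‖a‖)) ^ n, ?_⟩
  · refine DifferentiableOn.pow (((differentiableOn_const s)).div
      ((differentiableOn_id.const_mul _).const_sub _) ?_) n
    intro z hz
    exact one_sub_ne ha (mem_ball_zero_iff.mp hz).le
  · intro z hz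
    have hz' := mem_ball_zero_iff.mp hz
    rw [norm_pow, norm_div]
    have h1 : 1 - ‖a‖ ≤ ‖1 - conj a * z‖ := by
      have h1 : ‖(1:ℂ)‖ - ‖conj a * z‖ ≤ ‖1 - conj a * z‖ := norm_sub_norm_le _ _
      rw [norm_mul, RCLike.norm_conj, norm_one] at h1
      nlinarith [norm_nonneg a, norm_nonneg z]
    apply pow_le_pow_left₀ (by positivity)
    exact div_le_div_of_nonneg_left (norm_nonneg _) (by linarith) h1

theorem memHinf_comp_bl {h : ℂ → ℂ} (hh : MemHinf h) {a : ℂ} (ha : ‖a‖ < 1) :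
    MemHinf (fun z => h (bl a z)) := by
  have hm : MapsTo (bl a) (ball 0 1) (ball 0 1) := fun z hz =>
    mem_ball_zero_iff.mpr (norm_bl_lt ha (mem_ball_zero_iff.mp hz))
  obtain ⟨C, hC⟩ := hh.2
  exact ⟨hh.1.comp (differentiableOn_bl ha subset_rfl) hm, C, fun z hz => hC _ (hm hz)⟩

theorem nodePoly_replicate (n : ℕ) (w : ℂ) :
    nodePoly (Multiset.replicate n w) = (X - C w) ^ n := by
  simp [nodePoly]

theorem quotNorm_shift {h : ℂ → ℂ} (hh : MemHinf h) {w : ℂ} (hw : ‖w‖ < 1) (n : ℕ) :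
    quotNorm h ((X - C w) ^ n) = quotNorm (fun ζ => h (bl (-w) ζ)) ((X - C 0) ^ n) := by
  have hw' : ‖-w‖ < 1 := by simpa using hw
  have hm : MapsTo (bl w) (ball 0 1) (ball 0 1) := fun z hz =>
    mem_ball_zero_iff.mpr (norm_bl_lt hw (mem_ball_zero_iff.mp hz))
  have hm' : MapsTo (bl (-w)) (ball 0 1) (ball 0 1) := fun z hz =>
    mem_ball_zero_iff.mpr (norm_bl_lt hw' (mem_ball_zero_iff.mp hz))
  apply le_antisymm
  · refine quotNorm_comp_le (φ := bl w) (c := 1) (q := fun z => (1 / (1 - conj w * z)) ^ n)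
      (memHinf_comp_bl hh hw') (differentiableOn_bl hw subset_rfl) hm (by simp)
      (fun z hz => ?_) (memHinf_pow_inv hw 1 n) (fun z hz => ?_)
    · rw [bl_neg_bl hw (mem_ball_zero_iff.mp hz).le, one_mul]
    · simp only [one_mul, eval_pow, eval_sub, eval_X, eval_C, sub_zero]
      rw [← mul_pow]
      congr 1
      unfold bl
      ring
  · refine quotNorm_comp_le (φ := bl (-w)) (c := 1)
      (q := fun z => ((1 - conj w * w) / (1 - conj (-w) * z)) ^ n) hh
      (differentiableOn_bl hw' subset_rfl) hm' (by simp)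
      (fun z hz => by rw [one_mul]) (memHinf_pow_inv hw' _ n) (fun z hz => ?_)
    have hne := one_sub_ne hw' (mem_ball_zero_iff.mp hz).le
    simp only [one_mul, eval_pow, eval_sub, eval_X, eval_C, sub_zero]
    rw [← mul_pow]
    congr 1
    unfold bl
    rw [div_sub' hne, mul_div_assoc']
    congr 1
    simp only [map_neg]
    ring

theorem quotNorm_rotate {m n : ℕ} {w c : ℂ} (hc : ‖c‖ = 1) :
    quotNorm (fun z => z ^ m) ((X - C (c * w)) ^ n) ≤ quotNorm (fun z => z ^ m) ((X - C w) ^ n) := by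
  have hcc : c * conj c = 1 := by
    rw [mul_comm, ← normSq_eq_conj_mul_self, normSq_eq_norm_sq, hc]; simp
  have hmem : MemHinf (fun z => z ^ m) := by
    refine ⟨(differentiable_id.pow m).differentiableOn, 1, fun z hz => ?_⟩
    rw [norm_pow]
    exact pow_le_one₀ (norm_nonneg _) (mem_ball_zero_iff.mp hz).le
  refine quotNorm_comp_le (φ := fun z => conj c * z) (c := c ^ m)
    (q := fun _ => c ^ m * conj c ^ n) hmem
    ((differentiable_id.const_mul _).differentiableOn) ?_ (by rw [norm_pow, hc, one_pow])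
    (fun z _ => ?_) ⟨differentiableOn_const _, _, fun z _ => le_rfl⟩ (fun z _ => ?_)
  · intro z hz
    rw [mem_ball_zero_iff, norm_mul, RCLike.norm_conj, hc, one_mul]
    exact mem_ball_zero_iff.mp hz
  · rw [← mul_pow, ← mul_assoc, hcc, one_mul]
  · simp only [eval_pow, eval_sub, eval_X, eval_C]
    have e : conj c * z - w = conj c * (z - c * w) := by
      linear_combination w * hcc
    rw [e, mul_pow]
    ring

end Pool.MP_cf143d_an.Ptak
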